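import Mathlib

/-!
# Facts as natural numbers

A fact is one natural number, 37 blocks in base `YY = 2^2560`: blocks `0 .. 6` are the rows (in two
strides, residues modulo `R9 = BB^9`, `BB = 2^256`) and the right side of the matrix `C 0`, blocks
`7 s .. 7 s + 6` (`s = 1, 2, 3`) the same for the coefficients `C s` of the three parameters, blocks
`28 .. 34` for `M`, block `35` is `1` if the fact is mixed, block `36` is `1`.
-/

set_option autoImplicit false

namespace Pool.Agent.Helper80.TP

open Finset

/-- base of the rows -/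
def BB : ℕ := 115792089237316195423570985008687907853269984665640564039457584007913129639936

/-- `BB^9` -/
def R9 : ℕ := 0x1000000000000000000000000000000000000000000000000000000000000000000000000000000000000000000000000000000000000000000000000000000000000000000000000000000000000000000000000000000000000000000000000000000000000000000000000000000000000000000000000000000000000000000000000000000000000000000000000000000000000000000000000000000000000000000000000000000000000000000000000000000000000000000000000000000000000000000000000000000000000000000000000000000000000000000000000000000000000000000000000000000000000000000000000000000000000000000000000000000000000000000000000000000000000000000000000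

/-- base of the blocks, `BB^10` -/
def YY : ℕ := 0x10000000000000000000000000000000000000000000000000000000000000000000000000000000000000000000000000000000000000000000000000000000000000000000000000000000000000000000000000000000000000000000000000000000000000000000000000000000000000000000000000000000000000000000000000000000000000000000000000000000000000000000000000000000000000000000000000000000000000000000000000000000000000000000000000000000000000000000000000000000000000000000000000000000000000000000000000000000000000000000000000000000000000000000000000000000000000000000000000000000000000000000000000000000000000000000000000000000000000000000000000000000000000000000000000000000000000000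

/-- the mask of a residue -/
def M9 : ℕ := 0xffffffffffffffffffffffffffffffffffffffffffffffffffffffffffffffffffffffffffffffffffffffffffffffffffffffffffffffffffffffffffffffffffffffffffffffffffffffffffffffffffffffffffffffffffffffffffffffffffffffffffffffffffffffffffffffffffffffffffffffffffffffffffffffffffffffffffffffffffffffffffffffffffffffffffffffffffffffffffffffffffffffffffffffffffffffffffffffffffffffffffffffffffffffffffffffffffffffffffffffffffffffffffffffffffffffffffffffffffffffffffffffffffffffffffffffffffffffffffffffffffffffffffffffffffffffffffffffffffffffffffffffffffffffffffffffffffffffffffffffffffffffffffffffff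

set_option exponentiation.threshold 4000 in
theorem BB_eq : BB = 2 ^ 256 := by norm_num [BB]

set_option exponentiation.threshold 4000 in
theorem R9_eq : R9 = 2 ^ 2304 := by norm_num [R9]

set_option exponentiation.threshold 4000 in
theorem YY_eq : YY = 2 ^ 2560 := by norm_num [YY]

set_option exponentiation.threshold 4000 in
theorem M9_eq : M9 = 2 ^ 2304 - 1 := by norm_num [M9]

theorem R9_pos : 0 < R9 := by norm_num [R9]

/-- the bound of the blocks of a fact -/
def RB : ℕ := 2 ^ 60 * R9

theorem R9_le_RB : R9 ≤ RB := Nat.le_mul_of_pos_left _ (by norm_num)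

theorem YY_pos : 0 < YY := by norm_num [YY]

theorem YY_mul : YY = R9 * 2 ^ 256 := by norm_num [YY, R9]

theorem land_mod (a n : ℕ) : Nat.land a (2 ^ n - 1) = a % 2 ^ n := Nat.and_two_pow_sub_one_eq_mod a n

theorem shift_div (a n : ℕ) : Nat.shiftRight a n = a / 2 ^ n := Nat.shiftRight_eq_div_pow a n

/-- a block of a number -/
theorem block_eq (n i : ℕ) : Nat.land (Nat.shiftRight n (2560 * i)) M9 = n / YY ^ i % R9 := by
  rw [M9_eq, R9_eq, YY_eq, ← pow_mul, shift_div, land_mod]

/-- digits in a base -/
theorem digits_nat (Y : ℕ) (m : ℕ) (e : ℕ → ℕ) (he : ∀ j < m, e j < Y) (N : ℕ) (q : ℕ)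
    (hN : N = ∑ j ∈ range m, e j * Y ^ j + Y ^ m * q) : ∀ j < m, N / Y ^ j % Y = e j := by
  obtain ⟨T, hT⟩ : ∃ T : ℕ → ℕ, T = fun k => ∑ j ∈ range (m - k), e (k + j) * Y ^ j +
      Y ^ (m - k) * q := ⟨_, rfl⟩
  have h2 : ∀ k < m, T k = e k + Y * T (k + 1) := by
    intro k hk
    obtain ⟨r, rfl⟩ : ∃ r, m = k + 1 + r := ⟨m - (k + 1), by omega⟩
    have e1 : k + 1 + r - k = r + 1 := by omega
    have e2 : k + 1 + r - (k + 1) = r := by omega
    simp only [hT, e1, e2]
    rw [Finset.sum_range_succ', Nat.add_zero, pow_zero, mul_one, mul_add, Finset.mul_sum]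
    have e3 : ∑ j ∈ range r, e (k + (j + 1)) * Y ^ (j + 1) =
        ∑ j ∈ range r, Y * (e (k + 1 + j) * Y ^ j) := by
      refine Finset.sum_congr rfl fun j _ => ?_
      rw [show k + (j + 1) = k + 1 + j by omega]
      ring
    rw [e3]
    ring
  have h1 : ∀ k, k ≤ m → N / Y ^ k = T k := by
    intro k
    induction k with
    | zero =>
      intro _
      rw [pow_zero, Nat.div_one, hN, hT]
      simp
    | succ k ih =>
      intro hk
      have hY : 0 < Y := lt_of_le_of_lt (Nat.zero_le _) (he k (by omega))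
      rw [pow_succ, ← Nat.div_div_eq_div_mul, ih (by omega), h2 k (by omega),
        Nat.add_mul_div_left _ _ hY, Nat.div_eq_of_lt (he k (by omega)), zero_add]
  intro j hj
  rw [h1 j hj.le, h2 j hj, Nat.add_mul_mod_self_left]
  exact Nat.mod_eq_of_lt (he j hj)

/-- integer matrices -/
abbrev IM := Fin 3 → Fin 3 → ℤ

/-- a row in the short stride -/
def rowX (C : IM) (i : Fin 3) : ℤ := ∑ k : Fin 3, C i k * (BB : ℤ) ^ (k : ℕ)

/-- a row in the long stride -/
def rowY (C : IM) (i : Fin 3) : ℤ := ∑ k : Fin 3, C i k * (BB : ℤ) ^ (3 * (k : ℕ))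

/-- seven blocks from `o` on represent a matrix and a right side -/
structure Seven (e : ℕ → ℕ) (o : ℕ) (C : IM) (k : ℤ) : Prop where
  x : ∀ i : Fin 3, (e (o + i) : ℤ) ≡ rowX C i [ZMOD R9]
  y : ∀ i : Fin 3, (e (o + 3 + i) : ℤ) ≡ rowY C i [ZMOD R9]
  k : (e (o + 6) : ℤ) ≡ k [ZMOD R9]

/-- the real data -/
structure RD where
  F : Matrix (Fin 3) (Fin 3) ℝ
  G : Matrix (Fin 3) (Fin 3) ℝ
  c : ℕ → ℝ
  S2 : ℝ
  om : ℝ
  hS2 : 0 ≤ S2

/-- the pairing -/
def pr (G : Matrix (Fin 3) (Fin 3) ℝ) (C : IM) : ℝ := ∑ i : Fin 3, ∑ j : Fin 3, G i j * C i j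

theorem pr_trace (G : Matrix (Fin 3) (Fin 3) ℝ) (C : IM) :
    pr G C = Matrix.trace (G.transpose * Matrix.of fun i j => (C i j : ℝ)) := by
  simp only [pr, Matrix.trace, Matrix.mul_apply, Matrix.diag, Matrix.transpose_apply, Matrix.of_apply,
    Fin.sum_univ_three]
  ring

theorem pr_add (G : Matrix (Fin 3) (Fin 3) ℝ) (C D : IM) :
    pr G (fun i j => C i j + D i j) = pr G C + pr G D := by
  simp only [pr, Fin.sum_univ_three]
  push_cast
  ring

theorem pr_smul (G : Matrix (Fin 3) (Fin 3) ℝ) (w : ℤ) (C : IM) :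
    pr G (fun i j => w * C i j) = w * pr G C := by
  simp only [pr, Fin.sum_univ_three]
  push_cast
  ring

/-- an affine function of the parameters -/
def aff (c : ℕ → ℝ) (x : Fin 4 → ℝ) : ℝ := x 0 + c 0 * x 1 + c 1 * x 2 + c 2 * x 3

theorem aff_add (c : ℕ → ℝ) (x y : Fin 4 → ℝ) : aff c (fun s => x s + y s) = aff c x + aff c y := by
  unfold aff; ring

theorem aff_smul (c : ℕ → ℝ) (w : ℝ) (x : Fin 4 → ℝ) : aff c (fun s => w * x s) = w * aff c x := by
  unfold aff; ring

/-- `acc` is a combination of facts with total weight `W`: the integer matrices `C s`, `M`, the right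
sides `k s`, `u`, the weight `X` of the mixed facts, and the inequalities -/
structure SR (E : RD) (acc W : ℕ) (C : Fin 4 → IM) (k : Fin 4 → ℤ) (M : IM) (u : ℤ) (X : ℕ) : Prop where
  rep : ∃ e : ℕ → ℕ, acc = ∑ i ∈ range 37, e i * YY ^ i ∧ (∀ i < 36, e i ≤ W * RB) ∧ e 35 = X ∧
    e 36 = W ∧ (∀ s : Fin 4, Seven e (7 * s) (C s) (k s)) ∧ Seven e 28 M u
  bC : ∀ s i j, |C s i j| ≤ W * 2 ^ 14
  bM : ∀ i j, |M i j| ≤ W * 2 ^ 14
  bk : ∀ s, |k s| ≤ W * 2 ^ 20
  bu : |u| ≤ W * 2 ^ 20
  bX : X ≤ W
  mix : aff E.c (fun s => (k s : ℝ)) + E.S2 * (E.om * u) ≤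
    aff E.c (fun s => pr E.F (C s)) + E.S2 * pr E.G M
  sep : X = 0 → aff E.c (fun s => (k s : ℝ)) ≤ aff E.c (fun s => pr E.F (C s)) ∧
    E.om * u ≤ pr E.G M

/-- a fact -/
def IsFact (E : RD) (N : ℕ) : Prop := ∃ C k M u X, SR E N 1 C k M u X

theorem Seven.comb {e f : ℕ → ℕ} {o : ℕ} {C D : IM} {k l : ℤ} (w : ℕ) (h : Seven e o C k)
    (h' : Seven f o D l) :
    Seven (fun i => e i + w * f i) o (fun i j => C i j + w * D i j) (k + w * l) := by
  have key : ∀ {a b c d : ℤ}, a ≡ b [ZMOD R9] → c ≡ d [ZMOD R9] →
      a + w * c ≡ b + w * d [ZMOD R9] := fun h h' => Int.ModEq.add h (Int.ModEq.mul_left _ h')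
  constructor
  · intro i
    have e1 : rowX (fun i j => C i j + w * D i j) i = rowX C i + w * rowX D i := by
      simp only [rowX, Fin.sum_univ_three]; ring
    rw [e1]
    push_cast
    exact key (h.x i) (h'.x i)
  · intro i
    have e1 : rowY (fun i j => C i j + w * D i j) i = rowY C i + w * rowY D i := by
      simp only [rowY, Fin.sum_univ_three]; ring
    rw [e1]
    push_cast
    exact key (h.y i) (h'.y i)
  · push_cast
    exact key h.k h'.k

theorem SR.comb {E : RD} {acc W N V : ℕ} {C D : Fin 4 → IM} {k l : Fin 4 → ℤ} {M L : IM} {u v : ℤ}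
    {X Z : ℕ} (w : ℕ) (h : SR E acc W C k M u X) (h' : SR E N V D l L v Z) :
    SR E (acc + w * N) (W + w * V) (fun s i j => C s i j + w * D s i j) (fun s => k s + w * l s)
      (fun i j => M i j + w * L i j) (u + w * v) (X + w * Z) := by
  have hw : (0 : ℝ) ≤ w := Nat.cast_nonneg _
  have babs : ∀ (a b : ℤ) (t : ℕ), |a| ≤ W * 2 ^ t → |b| ≤ V * 2 ^ t →
      |a + w * b| ≤ ((W + w * V : ℕ) : ℤ) * 2 ^ t := by
    intro a b t ha hb
    have h0 : (0 : ℤ) ≤ w := Nat.cast_nonneg _
    calc |a + w * b| ≤ |a| + |w * b| := abs_add_le _ _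
      _ = |a| + w * |b| := by rw [abs_mul, abs_of_nonneg h0]
      _ ≤ W * 2 ^ t + w * (V * 2 ^ t) := add_le_add ha (mul_le_mul_of_nonneg_left hb h0)
      _ = ((W + w * V : ℕ) : ℤ) * 2 ^ t := by push_cast; ring
  have epr : ∀ (G : Matrix (Fin 3) (Fin 3) ℝ) (A B : IM),
      pr G (fun i j => A i j + w * B i j) = pr G A + w * pr G B := by
    intro G A B
    simp only [pr, Fin.sum_univ_three]
    push_cast
    ring
  have ek : aff E.c (fun s => ((k s + w * l s : ℤ) : ℝ)) =
      aff E.c (fun s => (k s : ℝ)) + w * aff E.c (fun s => (l s : ℝ)) := by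
    unfold aff
    push_cast
    ring
  have eC : aff E.c (fun s => pr E.F (fun i j => C s i j + w * D s i j)) =
      aff E.c (fun s => pr E.F (C s)) + w * aff E.c (fun s => pr E.F (D s)) := by
    simp only [epr]
    unfold aff
    ring
  constructor
  · obtain ⟨e, h1, h2, h3, h4, h5, h6⟩ := h.rep
    obtain ⟨f, g1, g2, g3, g4, g5, g6⟩ := h'.rep
    refine ⟨fun i => e i + w * f i, ?_, ?_, ?_, ?_, fun s => (h5 s).comb w (g5 s), h6.comb w g6⟩
    · rw [h1, g1, Finset.mul_sum, ← Finset.sum_add_distrib]
      exact Finset.sum_congr rfl fun i _ => by ring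
    · intro i hi
      have a1 := h2 i hi
      have a2 := Nat.mul_le_mul_left w (g2 i hi)
      calc e i + w * f i ≤ W * RB + w * (V * RB) := add_le_add a1 a2
        _ = (W + w * V) * RB := by ring
    · show e 35 + w * f 35 = X + w * Z
      rw [h3, g3]
    · show e 36 + w * f 36 = W + w * V
      rw [h4, g4]
  · intro s i j
    exact babs _ _ _ (h.bC s i j) (h'.bC s i j)
  · intro i j
    exact babs _ _ _ (h.bM i j) (h'.bM i j)
  · intro s
    exact babs _ _ _ (h.bk s) (h'.bk s)
  · exact babs _ _ _ h.bu h'.bu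
  · exact add_le_add h.bX (Nat.mul_le_mul_left w h'.bX)
  · have h1 := h.mix
    have h2 := mul_le_mul_of_nonneg_left h'.mix hw
    rw [ek, eC, epr]
    push_cast
    linarith
  · intro hX
    have hX0 : X = 0 := by omega
    have hZ0 : w * Z = 0 := by omega
    obtain ⟨h1, h2⟩ := h.sep hX0
    rw [ek, eC, epr]
    push_cast
    rcases Nat.mul_eq_zero.mp hZ0 with h0 | h0
    · subst h0
      simp only [Nat.cast_zero, zero_mul, add_zero]
      exact ⟨h1, h2⟩
    · obtain ⟨g1, g2⟩ := h'.sep h0
      have k1 := mul_le_mul_of_nonneg_left g1 hw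
      have k2 := mul_le_mul_of_nonneg_left g2 hw
      constructor <;> linarith

theorem sr_zero (E : RD) : SR E 0 0 (fun _ _ _ => 0) (fun _ => 0) (fun _ _ => 0) 0 0 := by
  have h7 : ∀ o, Seven (fun _ => 0) o (fun _ _ => 0) 0 := by
    intro o
    constructor <;> simp [rowX, rowY]
  refine ⟨⟨fun _ => 0, by simp, by simp, rfl, rfl, fun s => h7 _, h7 28⟩, by simp, by simp, by simp,
    by simp, le_rfl, ?_, ?_⟩
  · simp [pr, aff]
  · intro _
    simp [pr, aff]

end Pool.Agent.Helper80.TP
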