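import Mathlib
import Pool.Agent.Helper80.TP.Fact

/-!
# Combinations of facts at the corners of the box

`pc0 acc + n₁ pc1 acc + n₂ pc2 acc + n₃ pc3 acc` represents `65536 C₀ + n₁ C₁ + n₂ C₂ + n₃ C₃`,
`pcM acc` represents `65536 M`.
-/

set_option autoImplicit false

namespace Pool.Agent.Helper80.TP

open Finset

/-- every number is given by its digits -/
theorem self_digits (Y : ℕ) (m N : ℕ) :
    N = ∑ j ∈ range m, (N / Y ^ j % Y) * Y ^ j + Y ^ m * (N / Y ^ m) := by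
  induction m with
  | zero => simp
  | succ m ih =>
    rw [Finset.sum_range_succ]
    have h2 : N / Y ^ m = N / Y ^ m % Y + Y * (N / Y ^ (m + 1)) := by
      rw [pow_succ, ← Nat.div_div_eq_div_mul]
      exact (Nat.mod_add_div (N / Y ^ m) Y).symm
    calc N = ∑ j ∈ range m, (N / Y ^ j % Y) * Y ^ j + Y ^ m * (N / Y ^ m) := ih
      _ = ∑ j ∈ range m, (N / Y ^ j % Y) * Y ^ j + Y ^ m * (N / Y ^ m % Y + Y * (N / Y ^ (m + 1))) := by
          rw [← h2]
      _ = _ := by ring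

/-- sums of digits are small -/
theorem digits_lt (Y m : ℕ) (e : ℕ → ℕ) (he : ∀ j < m, e j < Y) : ∑ j ∈ range m, e j * Y ^ j < Y ^ m := by
  induction m with
  | zero => simp
  | succ m ih =>
    rw [Finset.sum_range_succ]
    have h1 := ih fun j hj => he j (by omega)
    have h2 := he m (by omega)
    have h3 : (e m + 1) * Y ^ m ≤ Y * Y ^ m := Nat.mul_le_mul_right _ h2
    rw [pow_succ]
    nlinarith

/-- the lower digits -/
theorem mod_digits (Y m N : ℕ) (hY : 0 < Y) : N % Y ^ m = ∑ j ∈ range m, (N / Y ^ j % Y) * Y ^ j := by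
  have h1 := digits_lt Y m (fun j => N / Y ^ j % Y) fun j _ => Nat.mod_lt _ hY
  conv_lhs => rw [self_digits Y m N]
  rw [Nat.add_mul_mod_self_left]
  exact Nat.mod_eq_of_lt h1

/-- a mask -/
def mask (n : Nat) : Nat := Nat.sub (Nat.pow 2 n) 1

theorem mask_eq (n : Nat) : mask n = 2 ^ n - 1 := rfl

/-- the mask of seven blocks -/
def M7 : Nat := mask 17920

theorem M7_eq : M7 = mask 17920 := rfl

/-- the parts of the sum -/
def pc0 (acc : Nat) : Nat := Nat.mul 65536 (Nat.land acc M7)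

def pc1 (acc : Nat) : Nat := Nat.land (Nat.shiftRight acc 17920) M7

def pc2 (acc : Nat) : Nat := Nat.land (Nat.shiftRight acc 35840) M7

def pc3 (acc : Nat) : Nat := Nat.land (Nat.shiftRight acc 53760) M7

def pcM (acc : Nat) : Nat := Nat.mul 65536 (Nat.land (Nat.shiftRight acc 71680) M7)

/-- a block -/
def bl (n k : Nat) : Nat := Nat.land (Nat.shiftRight n k) M9

/-- the total weight is small -/
def okW (acc : Nat) : Bool := Nat.ble (Nat.shiftRight acc 92160) 1048575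

theorem bl_eq (n i : ℕ) : bl n (2560 * i) = n / YY ^ i % R9 := block_eq n i

theorem YY_pow (a : ℕ) : YY ^ a = 2 ^ (2560 * a) := by rw [YY_eq, ← pow_mul]

theorem land7 (n : ℕ) : Nat.land n M7 = n % YY ^ 7 := by
  rw [M7_eq, mask_eq, land_mod, YY_pow]

theorem shift_eq (n a : ℕ) : Nat.shiftRight n (2560 * a) = n / YY ^ a := by
  rw [shift_div, YY_pow]

theorem pc0_eq (acc : ℕ) : pc0 acc = 65536 * (acc % YY ^ 7) := by
  have h : pc0 acc = 65536 * Nat.land acc M7 := rfl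
  rw [h, land7]

theorem pc1_eq (acc : ℕ) : pc1 acc = acc / YY ^ 7 % YY ^ 7 := by
  have h : pc1 acc = Nat.land (Nat.shiftRight acc (2560 * 7)) M7 := rfl
  rw [h, land7, shift_eq]

theorem pc2_eq (acc : ℕ) : pc2 acc = acc / YY ^ 14 % YY ^ 7 := by
  have h : pc2 acc = Nat.land (Nat.shiftRight acc (2560 * 14)) M7 := rfl
  rw [h, land7, shift_eq]

theorem pc3_eq (acc : ℕ) : pc3 acc = acc / YY ^ 21 % YY ^ 7 := by
  have h : pc3 acc = Nat.land (Nat.shiftRight acc (2560 * 21)) M7 := rfl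
  rw [h, land7, shift_eq]

theorem pcM_eq (acc : ℕ) : pcM acc = 65536 * (acc / YY ^ 28 % YY ^ 7) := by
  have h : pcM acc = 65536 * Nat.land (Nat.shiftRight acc (2560 * 28)) M7 := rfl
  rw [h, land7, shift_eq]

theorem okW_eq (acc : ℕ) (h : okW acc = true) : acc / YY ^ 36 < 2 ^ 20 := by
  have h1 : okW acc = Nat.ble (Nat.shiftRight acc (2560 * 36)) 1048575 := rfl
  rw [h1, shift_eq] at h
  have h2 : acc / YY ^ 36 ≤ 1048575 := Nat.le_of_ble_eq_true h
  omega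

/-- the matrix at a corner -/
def CJ (C : Fin 4 → IM) (n : Fin 3 → ℕ) : IM :=
  fun i j => 65536 * C 0 i j + n 0 * C 1 i j + n 1 * C 2 i j + n 2 * C 3 i j

/-- the right side at a corner -/
def kJ (k : Fin 4 → ℤ) (n : Fin 3 → ℕ) : ℤ := 65536 * k 0 + n 0 * k 1 + n 1 * k 2 + n 2 * k 3

/-- the sum at a corner -/
def accJ (acc : ℕ) (n : Fin 3 → ℕ) : ℕ := pc0 acc + n 0 * pc1 acc + n 1 * pc2 acc + n 2 * pc3 acc

theorem small_lt {W : ℕ} (hW : W < 2 ^ 20) : 4 * 65536 * (W * RB) < YY := by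
  rw [YY_mul]
  have h1 : 4 * 65536 * (W * RB) ≤ 4 * 65536 * (2 ^ 20 * RB) :=
    Nat.mul_le_mul_left _ (Nat.mul_le_mul_right _ hW.le)
  have h2 : 4 * 65536 * (2 ^ 20 * RB) < R9 * 2 ^ 256 := by
    have h3 : 4 * 65536 * (2 ^ 20 * RB) = R9 * (4 * 65536 * 2 ^ 20 * 2 ^ 60) := by
      unfold RB; ring
    rw [h3]
    exact Nat.mul_lt_mul_of_pos_left (by norm_num) R9_pos
  omega

section

variable {E : RD} {acc W : ℕ} {C : Fin 4 → IM} {k : Fin 4 → ℤ} {M : IM} {u : ℤ} {X : ℕ}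

/-- the weight is at most the top block -/
theorem SR.W_lt (h : SR E acc W C k M u X) (hW : acc / YY ^ 36 < 2 ^ 20) : W < 2 ^ 20 := by
  obtain ⟨e, h1, -, -, h4, -⟩ := h.rep
  refine lt_of_le_of_lt ?_ hW
  rw [Nat.le_div_iff_mul_le (pow_pos YY_pos 36), h1, ← h4]
  exact Finset.single_le_sum (f := fun i => e i * YY ^ i) (fun i _ => Nat.zero_le _)
    (Finset.mem_range.mpr (by norm_num : 36 < 37))

/-- the blocks of a combination -/
theorem SR.blocks (h : SR E acc W C k M u X) (hW : W < 2 ^ 20) :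
    ∃ e : ℕ → ℕ, (∀ i < 37, acc / YY ^ i % YY = e i) ∧ (∀ i < 36, e i ≤ W * RB) ∧ e 35 = X ∧
      (∀ s : Fin 4, Seven e (7 * s) (C s) (k s)) ∧ Seven e 28 M u := by
  obtain ⟨e, h1, h2, h3, h4, h5⟩ := h.rep
  have hYW := small_lt hW
  have hlt : ∀ j < 37, e j < YY := by
    intro j hj
    rcases Nat.lt_or_ge j 36 with h6 | h6
    · have h7 := h2 j h6
      have h8 : W * RB ≤ 4 * 65536 * (W * RB) := Nat.le_mul_of_pos_left _ (by norm_num)
      omega
    · have h9 : j = 36 := by omega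
      rw [h9, h4]
      have h10 : (2 : ℕ) ^ 20 < YY := by norm_num [YY]
      omega
  refine ⟨e, ?_, h2, h3, h5⟩
  exact digits_nat YY 37 e hlt acc 0 (by rw [h1]; simp)

/-- the mixed weight -/
theorem SR.x_zero (h : SR E acc W C k M u X) (hW : okW acc = true) (hX : bl acc 89600 = 0) : X = 0 := by
  have hle := h.W_lt (okW_eq acc hW)
  obtain ⟨e, h1, h2, h3, -⟩ := h.blocks hle
  have h4 : acc / YY ^ 35 % R9 = 0 := by
    rw [← bl_eq]
    exact hX
  have h5 : acc / YY ^ 35 % YY % R9 = acc / YY ^ 35 % R9 :=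
    Nat.mod_mod_of_dvd _ ⟨2 ^ 256, YY_mul⟩
  rw [h1 35 (by norm_num), h3, h4] at h5
  have h6 : X < R9 := by
    have := h.bX
    have h7 : (2 : ℕ) ^ 20 < R9 := by norm_num [R9]
    omega
  rwa [Nat.mod_eq_of_lt h6] at h5

/-- a residue -/
theorem mod_cong (n : ℕ) (z : ℤ) (h : (n : ℤ) ≡ z [ZMOD R9]) : ((n % R9 : ℕ) : ℤ) ≡ z [ZMOD R9] := by
  refine Int.ModEq.trans ?_ h
  push_cast
  exact Int.mod_modEq _ _

/-- the blocks at a corner -/
theorem SR.corner (h : SR E acc W C k M u X) (hW : okW acc = true) (n : Fin 3 → ℕ)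
    (hn : ∀ i, n i ≤ 65536) :
    Seven (fun i => bl (accJ acc n) (2560 * i)) 0 (CJ C n) (kJ k n) ∧
    Seven (fun i => bl (pcM acc) (2560 * i)) 0 (fun i j => 65536 * M i j) (65536 * u) := by
  have hW' := h.W_lt (okW_eq acc hW)
  obtain ⟨e, h1, h2, h3, h4, h7⟩ := h.blocks hW'
  have hsm := small_lt hW'
  have dd : ∀ a, a + 7 ≤ 37 → acc / YY ^ a % YY ^ 7 = ∑ j ∈ range 7, e (a + j) * YY ^ j := by
    intro a ha
    rw [mod_digits YY 7 _ YY_pos]
    refine Finset.sum_congr rfl fun j hj => ?_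
    rw [Nat.div_div_eq_div_mul, ← pow_add, h1 (a + j) (by have := Finset.mem_range.mp hj; omega)]
  have eJ : accJ acc n = ∑ j ∈ range 7, (65536 * e j + n 0 * e (7 + j) + n 1 * e (14 + j) +
      n 2 * e (21 + j)) * YY ^ j := by
    have c0 := dd 0 (by norm_num)
    rw [pow_zero, Nat.div_one] at c0
    unfold accJ
    rw [pc0_eq, pc1_eq, pc2_eq, pc3_eq, c0, dd 7 (by norm_num), dd 14 (by norm_num),
      dd 21 (by norm_num), Finset.mul_sum, Finset.mul_sum, Finset.mul_sum, Finset.mul_sum,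
      ← Finset.sum_add_distrib, ← Finset.sum_add_distrib, ← Finset.sum_add_distrib]
    refine Finset.sum_congr rfl fun j _ => ?_
    rw [Nat.zero_add]
    ring
  have eM : pcM acc = ∑ j ∈ range 7, (65536 * e (28 + j)) * YY ^ j := by
    rw [pcM_eq, dd 28 (by norm_num), Finset.mul_sum]
    exact Finset.sum_congr rfl fun j _ => by ring
  have bd : ∀ j < 7, 65536 * e j + n 0 * e (7 + j) + n 1 * e (14 + j) + n 2 * e (21 + j) < YY := by
    intro j hj
    have a1 := h2 j (by omega)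
    have a2 := Nat.mul_le_mul (hn 0) (h2 (7 + j) (by omega))
    have a3 := Nat.mul_le_mul (hn 1) (h2 (14 + j) (by omega))
    have a4 := Nat.mul_le_mul (hn 2) (h2 (21 + j) (by omega))
    have a6 := Nat.mul_le_mul_left 65536 a1
    nlinarith
  have key1 : ∀ j < 7, bl (accJ acc n) (2560 * j) =
      (65536 * e j + n 0 * e (7 + j) + n 1 * e (14 + j) + n 2 * e (21 + j)) % R9 := by
    intro j hj
    rw [bl_eq]
    have e1 := digits_nat YY 7 (fun j => 65536 * e j + n 0 * e (7 + j) + n 1 * e (14 + j) +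
      n 2 * e (21 + j)) bd (accJ acc n) 0 (by rw [eJ]; simp) j hj
    rw [← Nat.mod_mod_of_dvd _ (⟨2 ^ 256, YY_mul⟩ : R9 ∣ YY), e1]
  have bdM : ∀ j < 7, 65536 * e (28 + j) < YY := by
    intro j hj
    have a1 := h2 (28 + j) (by omega)
    have a6 := Nat.mul_le_mul_left 65536 a1
    nlinarith
  have key2 : ∀ j < 7, bl (pcM acc) (2560 * j) = (65536 * e (28 + j)) % R9 := by
    intro j hj
    rw [bl_eq]
    have e1 := digits_nat YY 7 (fun j => 65536 * e (28 + j)) bdM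
      (pcM acc) 0 (by rw [eM]; simp) j hj
    rw [← Nat.mod_mod_of_dvd _ (⟨2 ^ 256, YY_mul⟩ : R9 ∣ YY), e1]
  have comb4 : ∀ {a b c d : ℕ} {x y z w : ℤ}, (a : ℤ) ≡ x [ZMOD R9] → (b : ℤ) ≡ y [ZMOD R9] →
      (c : ℤ) ≡ z [ZMOD R9] → (d : ℤ) ≡ w [ZMOD R9] →
      ((65536 * a + n 0 * b + n 1 * c + n 2 * d : ℕ) : ℤ) ≡
        65536 * x + n 0 * y + n 1 * z + n 2 * w [ZMOD R9] := by
    intro a b c d x y z w ha hb hc hd
    push_cast
    exact Int.ModEq.add (Int.ModEq.add (Int.ModEq.add (Int.ModEq.mul_left _ ha) (Int.ModEq.mul_left _ hb))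
      (Int.ModEq.mul_left _ hc)) (Int.ModEq.mul_left _ hd)
  have s0 := h4 0
  have s1 := h4 1
  have s2 := h4 2
  have s3 := h4 3
  refine ⟨⟨fun i => ?_, fun i => ?_, ?_⟩, ⟨fun i => ?_, fun i => ?_, ?_⟩⟩
  · show ((bl (accJ acc n) (2560 * (0 + (i : ℕ))) : ℕ) : ℤ) ≡ _ [ZMOD R9]
    rw [key1 _ (by omega)]
    refine mod_cong _ _ ?_
    have e2 : rowX (CJ C n) i = 65536 * rowX (C 0) i + n 0 * rowX (C 1) i + n 1 * rowX (C 2) i +
        n 2 * rowX (C 3) i := by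
      simp only [rowX, CJ, Fin.sum_univ_three]; ring
    rw [e2]
    have t0 := s0.x i
    have t1 := s1.x i
    have t2 := s2.x i
    have t3 := s3.x i
    have f0 : 7 * ((0 : Fin 4) : ℕ) + (i : ℕ) = 0 + i := rfl
    have f1 : 7 * ((1 : Fin 4) : ℕ) + (i : ℕ) = 7 + i := rfl
    have f2 : 7 * ((2 : Fin 4) : ℕ) + (i : ℕ) = 14 + i := rfl
    have f3 : 7 * ((3 : Fin 4) : ℕ) + (i : ℕ) = 21 + i := rfl
    rw [f0] at t0
    rw [f1] at t1
    rw [f2] at t2
    rw [f3] at t3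
    rw [show 7 + (0 + (i : ℕ)) = 7 + (i : ℕ) by omega, show 14 + (0 + (i : ℕ)) = 14 + (i : ℕ) by omega,
      show 21 + (0 + (i : ℕ)) = 21 + (i : ℕ) by omega]
    exact comb4 t0 t1 t2 t3
  · show ((bl (accJ acc n) (2560 * (0 + 3 + (i : ℕ))) : ℕ) : ℤ) ≡ _ [ZMOD R9]
    rw [key1 _ (by omega)]
    refine mod_cong _ _ ?_
    have e2 : rowY (CJ C n) i = 65536 * rowY (C 0) i + n 0 * rowY (C 1) i + n 1 * rowY (C 2) i +
        n 2 * rowY (C 3) i := by
      simp only [rowY, CJ, Fin.sum_univ_three]; ring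
    rw [e2]
    have t0 := s0.y i
    have t1 := s1.y i
    have t2 := s2.y i
    have t3 := s3.y i
    have f0 : 7 * ((0 : Fin 4) : ℕ) + 3 + (i : ℕ) = 0 + 3 + i := rfl
    have f1 : 7 * ((1 : Fin 4) : ℕ) + 3 + (i : ℕ) = 7 + 3 + i := rfl
    have f2 : 7 * ((2 : Fin 4) : ℕ) + 3 + (i : ℕ) = 14 + 3 + i := rfl
    have f3 : 7 * ((3 : Fin 4) : ℕ) + 3 + (i : ℕ) = 21 + 3 + i := rfl
    rw [f0] at t0
    rw [f1] at t1
    rw [f2] at t2
    rw [f3] at t3
    rw [show 7 + (0 + 3 + (i : ℕ)) = 7 + 3 + (i : ℕ) by omega,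
      show 14 + (0 + 3 + (i : ℕ)) = 14 + 3 + (i : ℕ) by omega,
      show 21 + (0 + 3 + (i : ℕ)) = 21 + 3 + (i : ℕ) by omega]
    exact comb4 t0 t1 t2 t3
  · show ((bl (accJ acc n) (2560 * (0 + 6)) : ℕ) : ℤ) ≡ _ [ZMOD R9]
    rw [key1 _ (by norm_num)]
    exact mod_cong _ _ (comb4 s0.k s1.k s2.k s3.k)
  · show ((bl (pcM acc) (2560 * (0 + (i : ℕ))) : ℕ) : ℤ) ≡ _ [ZMOD R9]
    rw [key2 _ (by omega)]
    refine mod_cong _ _ ?_
    have e2 : rowX (fun i j => 65536 * M i j) i = 65536 * rowX M i := by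
      simp only [rowX, Fin.sum_univ_three]; ring
    rw [e2, show 28 + (0 + (i : ℕ)) = 28 + (i : ℕ) by omega]
    push_cast
    exact Int.ModEq.mul_left _ (h7.x i)
  · show ((bl (pcM acc) (2560 * (0 + 3 + (i : ℕ))) : ℕ) : ℤ) ≡ _ [ZMOD R9]
    rw [key2 _ (by omega)]
    refine mod_cong _ _ ?_
    have e2 : rowY (fun i j => 65536 * M i j) i = 65536 * rowY M i := by
      simp only [rowY, Fin.sum_univ_three]; ring
    rw [e2, show 28 + (0 + 3 + (i : ℕ)) = 28 + 3 + (i : ℕ) by omega]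
    push_cast
    exact Int.ModEq.mul_left _ (h7.y i)
  · show ((bl (pcM acc) (2560 * (0 + 6)) : ℕ) : ℤ) ≡ _ [ZMOD R9]
    rw [key2 _ (by norm_num)]
    refine mod_cong _ _ ?_
    push_cast
    exact Int.ModEq.mul_left _ h7.k

/-- the bounds at a corner -/
theorem SR.bounds (h : SR E acc W C k M u X) (hW : okW acc = true) (n : Fin 3 → ℕ)
    (hn : ∀ i, n i ≤ 65536) :
    (∀ i j, |CJ C n i j| ≤ 2 ^ 52) ∧ |kJ k n| ≤ 2 ^ 58 ∧
    (∀ i j, |65536 * M i j| ≤ 2 ^ 50) ∧ |65536 * u| ≤ 2 ^ 56 := by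
  have hW' : (W : ℤ) ≤ 2 ^ 20 := by exact_mod_cast (h.W_lt (okW_eq acc hW)).le
  have hn' : ∀ i, (n i : ℤ) ≤ 65536 := fun i => by exact_mod_cast hn i
  have hn0 : ∀ i, (0 : ℤ) ≤ n i := fun i => Nat.cast_nonneg _
  have t3 : ∀ (a b c d : ℤ) (B : ℤ), |a| ≤ B → |b| ≤ B → |c| ≤ B → |d| ≤ B →
      |65536 * a + n 0 * b + n 1 * c + n 2 * d| ≤ 4 * 65536 * B := by
    intro a b c d B ha hb hc hd
    have hB : 0 ≤ B := (abs_nonneg a).trans ha
    have c1 := mul_le_mul (hn' 0) hb (abs_nonneg b) (by norm_num)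
    have c2 := mul_le_mul (hn' 1) hc (abs_nonneg c) (by norm_num)
    have c3 := mul_le_mul (hn' 2) hd (abs_nonneg d) (by norm_num)
    calc |65536 * a + n 0 * b + n 1 * c + n 2 * d|
        ≤ |65536 * a| + |n 0 * b| + |n 1 * c| + |n 2 * d| := by
          linarith [abs_add_le (65536 * a) (n 0 * b), abs_add_le (65536 * a + n 0 * b) (n 1 * c),
            abs_add_le (65536 * a + n 0 * b + n 1 * c) (n 2 * d)]
      _ = 65536 * |a| + n 0 * |b| + n 1 * |c| + n 2 * |d| := by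
          rw [abs_mul, abs_mul, abs_mul, abs_mul, abs_of_nonneg (hn0 0), abs_of_nonneg (hn0 1),
            abs_of_nonneg (hn0 2)]
          norm_num
      _ ≤ 4 * 65536 * B := by linarith
  refine ⟨fun i j => ?_, ?_, fun i j => ?_, ?_⟩
  · have hb : ∀ s, |C s i j| ≤ 2 ^ 20 * 2 ^ 14 := fun s =>
      (h.bC s i j).trans (mul_le_mul_of_nonneg_right hW' (by positivity))
    exact (t3 _ _ _ _ (2 ^ 20 * 2 ^ 14) (hb 0) (hb 1) (hb 2) (hb 3)).trans (by norm_num)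
  · have hb : ∀ s, |k s| ≤ 2 ^ 20 * 2 ^ 20 := fun s =>
      (h.bk s).trans (mul_le_mul_of_nonneg_right hW' (by positivity))
    exact (t3 _ _ _ _ (2 ^ 20 * 2 ^ 20) (hb 0) (hb 1) (hb 2) (hb 3)).trans (by norm_num)
  · rw [abs_mul]
    have := (h.bM i j).trans (mul_le_mul_of_nonneg_right hW' (by positivity))
    norm_num at this ⊢
    linarith
  · rw [abs_mul]
    have := h.bu.trans (mul_le_mul_of_nonneg_right hW' (by positivity))
    norm_num at this ⊢
    linarith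

/-- interpolation in the box -/
theorem SR.interp (h : SR E acc W C k M u X) (σ : ℝ) (hσ : 0 < σ) (hX : X = 0 ∨ σ = E.S2)
    (l m : Fin 3 → ℕ) (b1 : ∀ i : Fin 3, (l i : ℝ) / 65536 ≤ E.c i)
    (b2 : ∀ i : Fin 3, E.c i ≤ (m i : ℝ) / 65536)
    (hall : ∀ n : Fin 3 → ℕ, (∀ i, n i = l i ∨ n i = m i) →
      pr E.F (CJ C n) + σ * pr E.G (fun i j => 65536 * M i j) <
        kJ k n + σ * (E.om * (65536 * u : ℤ))) : False := by
  have true_ineq : aff E.c (fun s => (k s : ℝ)) + σ * (E.om * u) ≤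
      aff E.c (fun s => pr E.F (C s)) + σ * pr E.G M := by
    rcases hX with h0 | h0
    · obtain ⟨g1, g2⟩ := h.sep h0
      have := mul_le_mul_of_nonneg_left g2 hσ.le
      linarith
    · rw [h0]
      exact h.mix
  have eC : ∀ n : Fin 3 → ℕ, pr E.F (CJ C n) = 65536 * pr E.F (C 0) + n 0 * pr E.F (C 1) +
      n 1 * pr E.F (C 2) + n 2 * pr E.F (C 3) := by
    intro n
    simp only [pr, CJ, Fin.sum_univ_three]
    push_cast
    ring
  have eM : pr E.G (fun i j => 65536 * M i j) = 65536 * pr E.G M := by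
    simp only [pr, Fin.sum_univ_three]
    push_cast
    ring
  obtain ⟨a, ha⟩ : ∃ a, a = pr E.F (C 0) + σ * pr E.G M - k 0 - σ * (E.om * u) := ⟨_, rfl⟩
  obtain ⟨b, hb⟩ : ∃ b : Fin 3 → ℝ, b = fun i => pr E.F (C i.succ) - k i.succ := ⟨_, rfl⟩
  have eb0 : b 0 = pr E.F (C 1) - k 1 := by rw [hb]; rfl
  have eb1 : b 1 = pr E.F (C 2) - k 2 := by rw [hb]; rfl
  have eb2 : b 2 = pr E.F (C 3) - k 3 := by rw [hb]; rfl
  have hneg : ∀ n : Fin 3 → ℕ, (∀ i, n i = l i ∨ n i = m i) →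
      65536 * a + n 0 * b 0 + n 1 * b 1 + n 2 * b 2 < 0 := by
    intro n h1
    have h3 := hall n h1
    rw [eC, eM] at h3
    unfold kJ at h3
    push_cast at h3
    rw [ha, eb0, eb1, eb2]
    linarith
  have hpos : 0 ≤ a + E.c 0 * b 0 + E.c 1 * b 1 + E.c 2 * b 2 := by
    rw [ha, eb0, eb1, eb2]
    unfold aff at true_ineq
    linarith
  have hb' : ∀ i : Fin 3, ∃ n, (n = l i ∨ n = m i) ∧ E.c i * 65536 * b i ≤ n * b i := by
    intro i
    have c1 := b1 i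
    have c2 := b2 i
    rw [div_le_iff₀ (by norm_num)] at c1
    rw [le_div_iff₀ (by norm_num)] at c2
    rcases le_total 0 (b i) with h0 | h0
    · exact ⟨m i, Or.inr rfl, mul_le_mul_of_nonneg_right c2 h0⟩
    · exact ⟨l i, Or.inl rfl, mul_le_mul_of_nonpos_right c1 h0⟩
  choose n hn1 hn2 using hb'
  have := hneg n hn1
  have q0 := hn2 0
  have q1 := hn2 1
  have q2 := hn2 2
  simp only [Fin.val_zero, Fin.val_one, Fin.val_two] at q0 q1 q2
  linarith

end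

end Pool.Agent.Helper80.TP
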