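import Mathlib
import Pool.Agent.Helper80.TP.Comb

/-!
# Building facts

A vector of integers is a pair of naturals: `U` has the two strides of `x` in the blocks `0` and `3`,
`N` the same for `- x`.  `outI s j v` is the packed matrix `g_j x^T` in part `s` (`s = 0, 1, 2, 3` for
`C s`, `4` for `M`), `kapI s k` the right side `k` in part `s`.
-/

set_option autoImplicit false

namespace Pool.Agent.Helper80.TP

open Finset

/-- powers of two -/
def p2 (n : Nat) : Nat := Nat.pow 2 n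

theorem p2_eq (n : Nat) : p2 n = 2 ^ n := rfl

theorem p2_add (a b : Nat) : p2 a * p2 b = p2 (a + b) := (pow_add 2 a b).symm

theorem p2_YY (a : Nat) : p2 (2560 * a) = YY ^ a := by
  rw [YY_pow, p2_eq]

theorem p2_BB (a : Nat) : p2 (256 * a) = BB ^ a := by
  rw [BB_eq, p2_eq, pow_mul]

attribute [local irreducible] p2

/-- `B^k` and `B^(3 k)` in the blocks `0` and `3` -/
def E0 : Nat := Nat.add 1 (p2 7680)
def E1 : Nat := Nat.add (p2 256) (p2 8448)
def E2 : Nat := Nat.add (p2 512) (p2 9216)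

/-- `- B^k` and `- B^(3 k)` -/
def N0 : Nat := Nat.add (Nat.sub R9 1) (Nat.mul (p2 7680) (Nat.sub R9 1))
def N1 : Nat := Nat.add (Nat.sub R9 (p2 256)) (Nat.mul (p2 7680) (Nat.sub R9 (p2 768)))
def N2 : Nat := Nat.add (Nat.sub R9 (p2 512)) (Nat.mul (p2 7680) (Nat.sub R9 (p2 1536)))

/-- vectors: `U` for `x`, `N` for `- x` -/
structure Vc where
  U : Nat
  N : Nat

/-- the vector `(p₀ - n₀, p₁ - n₁, p₂ - n₂)` -/
def vc (p₀ p₁ p₂ n₀ n₁ n₂ : Nat) : Vc :=
  ⟨Nat.add (Nat.add (Nat.mul p₀ E0) (Nat.add (Nat.mul p₁ E1) (Nat.mul p₂ E2)))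
    (Nat.add (Nat.mul n₀ N0) (Nat.add (Nat.mul n₁ N1) (Nat.mul n₂ N2))),
   Nat.add (Nat.add (Nat.mul p₀ N0) (Nat.add (Nat.mul p₁ N1) (Nat.mul p₂ N2)))
    (Nat.add (Nat.mul n₀ E0) (Nat.add (Nat.mul n₁ E1) (Nat.mul n₂ E2)))⟩

def Vc.add (v w : Vc) : Vc := ⟨Nat.add v.U w.U, Nat.add v.N w.N⟩

def Vc.sub (v w : Vc) : Vc := ⟨Nat.add v.U w.N, Nat.add v.N w.U⟩

def Vc.neg (v : Vc) : Vc := ⟨v.N, v.U⟩

def Vc.smul (t : Nat) (v : Vc) : Vc := ⟨Nat.mul t v.U, Nat.mul t v.N⟩

/-- the integer vectors `g_j` -/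
def gvI (j : Nat) (i : Fin 3) : ℤ :=
  match j with
  | 0 => 1
  | 1 => if i = 0 then 1 else -1
  | 2 => if i = 1 then 1 else -1
  | _ => if i = 2 then 1 else -1

/-- the packed matrix `g_j x^T` -/
noncomputable def outI (s j : Nat) (v : Vc) : Nat :=
  Nat.shiftLeft (@Nat.rec (fun _ => Nat)
    (Nat.mul v.U (Nat.add 1 (Nat.add (p2 2560) (p2 5120))))
    (fun j _ => @Nat.rec (fun _ => Nat)
      (Nat.add v.U (Nat.mul v.N (Nat.add (p2 2560) (p2 5120))))
      (fun j _ => @Nat.rec (fun _ => Nat)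
        (Nat.add (Nat.mul v.U (p2 2560)) (Nat.mul v.N (Nat.add 1 (p2 5120))))
        (fun _ _ => Nat.add (Nat.mul v.U (p2 5120)) (Nat.mul v.N (Nat.add 1 (p2 2560)))) j) j) j)
    (Nat.mul 17920 s)

/-- the right side `k` -/
def kapI (s k : Nat) : Nat := Nat.shiftLeft k (Nat.add (Nat.mul 17920 s) 15360)

/-- the right side `- k` -/
def kapN (s k : Nat) : Nat := Nat.shiftLeft (Nat.sub R9 k) (Nat.add (Nat.mul 17920 s) 15360)

/-- pure facts and mixed facts -/
def mkF (n : Nat) : Nat := Nat.add n (p2 92160)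

def mkX (n : Nat) : Nat := Nat.add n (Nat.add (p2 89600) (p2 92160))

/-- a sum of pieces -/
def Pc (N : ℕ) (C : Fin 5 → IM) (k : Fin 5 → ℤ) (p : ℕ) : Prop :=
  ∃ e : Fin 5 → ℕ → ℕ, N = ∑ s : Fin 5, YY ^ (7 * (s : ℕ)) * ∑ j ∈ range 7, e s j * YY ^ j ∧
    (∀ s, ∀ j < 7, e s j ≤ p * R9) ∧ ∀ s, Seven (e s) 0 (C s) (k s)

theorem Seven.add {e f : ℕ → ℕ} {o : ℕ} {C D : IM} {k l : ℤ} (h : Seven e o C k)
    (h' : Seven f o D l) : Seven (fun i => e i + f i) o (fun i j => C i j + D i j) (k + l) := by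
  have := h.comb 1 h'
  simpa using this

theorem Seven.smul {e : ℕ → ℕ} {o : ℕ} {C : IM} {k : ℤ} (w : ℕ) (h : Seven e o C k) :
    Seven (fun i => w * e i) o (fun i j => w * C i j) (w * k) := by
  have h0 : Seven (fun _ => 0) o (fun _ _ => 0) 0 := by
    constructor <;> simp [rowX, rowY]
  have := h0.comb w h
  simpa using this

theorem Pc.add {N N' : ℕ} {C C' : Fin 5 → IM} {k k' : Fin 5 → ℤ} {p p' : ℕ} (h : Pc N C k p)
    (h' : Pc N' C' k' p') : Pc (N + N') (fun s i j => C s i j + C' s i j) (fun s => k s + k' s) (p + p') := by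
  obtain ⟨e, h1, h2, h3⟩ := h
  obtain ⟨f, g1, g2, g3⟩ := h'
  refine ⟨fun s i => e s i + f s i, ?_, ?_, fun s => (h3 s).add (g3 s)⟩
  · rw [h1, g1, ← Finset.sum_add_distrib]
    refine Finset.sum_congr rfl fun s _ => ?_
    rw [← mul_add, ← Finset.sum_add_distrib]
    congr 1
    exact Finset.sum_congr rfl fun j _ => by ring
  · intro s j hj
    have a1 := h2 s j hj
    have a2 := g2 s j hj
    calc e s j + f s j ≤ p * R9 + p' * R9 := add_le_add a1 a2
      _ = (p + p') * R9 := by ring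

theorem Pc.smul {N : ℕ} {C : Fin 5 → IM} {k : Fin 5 → ℤ} {p : ℕ} (w : ℕ) (h : Pc N C k p) :
    Pc (w * N) (fun s i j => w * C s i j) (fun s => w * k s) (w * p) := by
  obtain ⟨e, h1, h2, h3⟩ := h
  refine ⟨fun s i => w * e s i, ?_, ?_, fun s => (h3 s).smul w⟩
  · rw [h1, Finset.mul_sum]
    refine Finset.sum_congr rfl fun s _ => ?_
    rw [mul_left_comm, Finset.mul_sum]
    congr 1
    exact Finset.sum_congr rfl fun j _ => by ring
  · intro s j hj
    have a1 := Nat.mul_le_mul_left w (h2 s j hj)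
    calc w * e s j ≤ w * (p * R9) := a1
      _ = w * p * R9 := by ring

/-- only one part -/
def one5 {α : Type} [Zero α] (s : Fin 5) (x : α) : Fin 5 → α := fun t => if t = s then x else 0

theorem pc_part (s : Fin 5) (n : ℕ) (e : ℕ → ℕ) (C : IM) (k : ℤ) (p : ℕ)
    (hn : n = ∑ j ∈ range 7, e j * YY ^ j) (he : ∀ j < 7, e j ≤ p * R9) (hS : Seven e 0 C k) :
    Pc (YY ^ (7 * (s : ℕ)) * n) (one5 s C) (one5 s k) p := by
  refine ⟨fun t => if t = s then e else fun _ => 0, ?_, ?_, ?_⟩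
  · rw [Finset.sum_eq_single s]
    · simp only [if_true, hn]
    · intro t _ ht
      simp [ht]
    · intro h
      exact absurd (Finset.mem_univ _) h
  · intro t j hj
    by_cases ht : t = s
    · simp only [ht, if_true]; exact he j hj
    · simp [ht]
  · intro t
    by_cases ht : t = s
    · simp only [ht, if_true, one5]; exact hS
    · simp only [ht, if_false, one5]
      constructor <;> simp [rowX, rowY]

/-- a vector -/
structure VR (v : Vc) (x : Fin 3 → ℤ) (p : ℕ) : Prop where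
  ex : ∃ a b c d : ℕ, v.U = a + YY ^ 3 * b ∧ v.N = c + YY ^ 3 * d ∧ a ≤ p * R9 ∧ b ≤ p * R9 ∧
    c ≤ p * R9 ∧ d ≤ p * R9 ∧
    (a : ℤ) ≡ ∑ k : Fin 3, x k * (BB : ℤ) ^ (k : ℕ) [ZMOD R9] ∧
    (b : ℤ) ≡ ∑ k : Fin 3, x k * (BB : ℤ) ^ (3 * (k : ℕ)) [ZMOD R9] ∧
    (c : ℤ) ≡ -∑ k : Fin 3, x k * (BB : ℤ) ^ (k : ℕ) [ZMOD R9] ∧
    (d : ℤ) ≡ -∑ k : Fin 3, x k * (BB : ℤ) ^ (3 * (k : ℕ)) [ZMOD R9]

theorem VR.neg {v : Vc} {x : Fin 3 → ℤ} {p : ℕ} (h : VR v x p) : VR v.neg (fun k => -x k) p := by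
  obtain ⟨a, b, c, d, h1, h2, h3, h4, h5, h6, h7, h8, h9, h10⟩ := h.ex
  refine ⟨c, d, a, b, h2, h1, h5, h6, h3, h4, ?_, ?_, ?_, ?_⟩
  · simpa using h9
  · simpa using h10
  · simpa using h7
  · simpa using h8

theorem VR.add {v w : Vc} {x y : Fin 3 → ℤ} {p q : ℕ} (h : VR v x p) (h' : VR w y q) :
    VR (v.add w) (fun k => x k + y k) (p + q) := by
  obtain ⟨a, b, c, d, h1, h2, h3, h4, h5, h6, h7, h8, h9, h10⟩ := h.ex
  obtain ⟨a', b', c', d', g1, g2, g3, g4, g5, g6, g7, g8, g9, g10⟩ := h'.ex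
  refine ⟨a + a', b + b', c + c', d + d', ?_, ?_, ?_, ?_, ?_, ?_, ?_, ?_, ?_, ?_⟩
  · show v.U + w.U = _
    rw [h1, g1]; ring
  · show v.N + w.N = _
    rw [h2, g2]; ring
  · rw [add_mul]; exact add_le_add h3 g3
  · rw [add_mul]; exact add_le_add h4 g4
  · rw [add_mul]; exact add_le_add h5 g5
  · rw [add_mul]; exact add_le_add h6 g6
  · push_cast
    simp only [add_mul, Finset.sum_add_distrib]
    exact Int.ModEq.add h7 g7
  · push_cast
    simp only [add_mul, Finset.sum_add_distrib]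
    exact Int.ModEq.add h8 g8
  · push_cast
    simp only [add_mul, Finset.sum_add_distrib, neg_add]
    exact Int.ModEq.add h9 g9
  · push_cast
    simp only [add_mul, Finset.sum_add_distrib, neg_add]
    exact Int.ModEq.add h10 g10

theorem VR.sub {v w : Vc} {x y : Fin 3 → ℤ} {p q : ℕ} (h : VR v x p) (h' : VR w y q) :
    VR (v.sub w) (fun k => x k - y k) (p + q) := by
  have := h.add h'.neg
  simp only [← sub_eq_add_neg] at this
  exact this

theorem VR.smul {v : Vc} {x : Fin 3 → ℤ} {p : ℕ} (t : ℕ) (h : VR v x p) :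
    VR (v.smul t) (fun k => t * x k) (t * p) := by
  obtain ⟨a, b, c, d, h1, h2, h3, h4, h5, h6, h7, h8, h9, h10⟩ := h.ex
  refine ⟨t * a, t * b, t * c, t * d, ?_, ?_, ?_, ?_, ?_, ?_, ?_, ?_, ?_, ?_⟩
  · show t * v.U = _
    rw [h1]; ring
  · show t * v.N = _
    rw [h2]; ring
  · rw [mul_assoc]; exact Nat.mul_le_mul_left t h3
  · rw [mul_assoc]; exact Nat.mul_le_mul_left t h4
  · rw [mul_assoc]; exact Nat.mul_le_mul_left t h5
  · rw [mul_assoc]; exact Nat.mul_le_mul_left t h6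
  · push_cast
    have := Int.ModEq.mul_left (t : ℤ) h7
    simpa only [mul_assoc, Finset.mul_sum] using this
  · push_cast
    have := Int.ModEq.mul_left (t : ℤ) h8
    simpa only [mul_assoc, Finset.mul_sum] using this
  · push_cast
    have := Int.ModEq.mul_left (t : ℤ) h9
    simpa only [mul_assoc, Finset.mul_sum, mul_neg] using this
  · push_cast
    have := Int.ModEq.mul_left (t : ℤ) h10
    simpa only [mul_assoc, Finset.mul_sum, mul_neg] using this

theorem YY3 : p2 7680 = YY ^ 3 := p2_YY 3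

/-- unit vectors -/
theorem vr_unit (e f n : ℕ) (k : Fin 3) (he : e = BB ^ (k : ℕ)) (hf : f = BB ^ (3 * (k : ℕ)))
    (hn : n = YY ^ 3) :
    VR ⟨e + n * f, (R9 - e) + n * (R9 - f)⟩ (fun i => if i = k then 1 else 0) 1 := by
  have hle : ∀ m : ℕ, m ≤ 6 → BB ^ m ≤ R9 := by
    intro m hm
    rw [R9_eq, BB_eq, ← pow_mul]
    exact Nat.pow_le_pow_right (by norm_num) (by omega)
  have h1 : e ≤ R9 := by rw [he]; exact hle _ (by omega)
  have h2 : f ≤ R9 := by rw [hf]; exact hle _ (by omega)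
  have hz : ((R9 : ℕ) : ℤ) ≡ 0 [ZMOD R9] := by
    rw [Int.modEq_zero_iff_dvd]
  refine ⟨e, f, R9 - e, R9 - f, by rw [hn], by rw [hn], by omega, by omega, by omega, by omega, ?_, ?_,
    ?_, ?_⟩
  · simp only [ite_mul, one_mul, zero_mul, Finset.sum_ite_eq', Finset.mem_univ, if_true, he]
    push_cast
    exact Int.ModEq.refl _
  · simp only [ite_mul, one_mul, zero_mul, Finset.sum_ite_eq', Finset.mem_univ, if_true, hf]
    push_cast
    exact Int.ModEq.refl _
  · simp only [ite_mul, one_mul, zero_mul, Finset.sum_ite_eq', Finset.mem_univ, if_true]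
    rw [Nat.cast_sub h1]
    have := Int.ModEq.sub hz (Int.ModEq.refl (e : ℤ))
    rw [zero_sub] at this
    rw [he] at this ⊢
    push_cast at this ⊢
    exact this
  · simp only [ite_mul, one_mul, zero_mul, Finset.sum_ite_eq', Finset.mem_univ, if_true]
    rw [Nat.cast_sub h2]
    have := Int.ModEq.sub hz (Int.ModEq.refl (f : ℤ))
    rw [zero_sub] at this
    rw [hf] at this ⊢
    push_cast at this ⊢
    exact this

theorem vr_E0 : VR ⟨E0, N0⟩ (fun i => if i = 0 then 1 else 0) 1 := by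
  have h := vr_unit 1 1 (p2 7680) 0 (by simp) (by simp) YY3
  have e1 : E0 = 1 + p2 7680 * 1 := by rw [mul_one]; rfl
  have e2 : N0 = (R9 - 1) + p2 7680 * (R9 - 1) := by
    unfold N0
    simp only [Nat.add_eq, Nat.mul_eq, Nat.sub_eq]
  rw [e1, e2]
  exact h

theorem vr_E1 : VR ⟨E1, N1⟩ (fun i => if i = 1 then 1 else 0) 1 := by
  have h := vr_unit (p2 256) (p2 768) (p2 7680) 1
    (p2_BB 1) (p2_BB 3) YY3
  have e1 : E1 = p2 256 + p2 7680 * p2 768 := by
    rw [p2_add]; rfl
  have e2 : N1 = (R9 - p2 256) + p2 7680 * (R9 - p2 768) := rfl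
  rw [e1, e2]
  exact h

theorem vr_E2 : VR ⟨E2, N2⟩ (fun i => if i = 2 then 1 else 0) 1 := by
  have h := vr_unit (p2 512) (p2 1536) (p2 7680) 2
    (p2_BB 2) (p2_BB 6) YY3
  have e1 : E2 = p2 512 + p2 7680 * p2 1536 := by
    rw [p2_add]; rfl
  have e2 : N2 = (R9 - p2 512) + p2 7680 * (R9 - p2 1536) := rfl
  rw [e1, e2]
  exact h

attribute [local irreducible] E0 E1 E2 N0 N1 N2

/-- integer vector of the digits -/
def vI (p₀ p₁ p₂ n₀ n₁ n₂ : ℕ) : Fin 3 → ℤ := ![p₀ - n₀, p₁ - n₁, p₂ - n₂]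

theorem vr_vc (p₀ p₁ p₂ n₀ n₁ n₂ : ℕ) :
    VR (vc p₀ p₁ p₂ n₀ n₁ n₂) (vI p₀ p₁ p₂ n₀ n₁ n₂) (p₀ + (p₁ + p₂) + (n₀ + (n₁ + n₂))) := by
  have a0 := vr_E0.smul p₀
  have a1 := vr_E1.smul p₁
  have a2 := vr_E2.smul p₂
  have b0 := (vr_E0.smul n₀).neg
  have b1 := (vr_E1.smul n₁).neg
  have b2 := (vr_E2.smul n₂).neg
  have h := (a0.add (a1.add a2)).add (b0.add (b1.add b2))
  have e1 : (fun k : Fin 3 => (((p₀ : ℤ) * if k = 0 then 1 else 0) + (((p₁ : ℤ) * if k = 1 then 1 else 0) +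
      ((p₂ : ℤ) * if k = 2 then 1 else 0))) + (-((n₀ : ℤ) * if k = 0 then 1 else 0) +
      (-((n₁ : ℤ) * if k = 1 then 1 else 0) + -((n₂ : ℤ) * if k = 2 then 1 else 0)))) =
      vI p₀ p₁ p₂ n₀ n₁ n₂ := by
    funext k
    fin_cases k <;> simp [vI] <;> ring
  have h2 : VR (vc p₀ p₁ p₂ n₀ n₁ n₂) (fun k : Fin 3 => (((p₀ : ℤ) * if k = 0 then 1 else 0) +
      (((p₁ : ℤ) * if k = 1 then 1 else 0) +
      ((p₂ : ℤ) * if k = 2 then 1 else 0))) + (-((n₀ : ℤ) * if k = 0 then 1 else 0) +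
      (-((n₁ : ℤ) * if k = 1 then 1 else 0) + -((n₂ : ℤ) * if k = 2 then 1 else 0))))
      (p₀ * 1 + (p₁ * 1 + p₂ * 1) + (n₀ * 1 + (n₁ * 1 + n₂ * 1))) := h
  rw [e1] at h2
  simpa only [mul_one] using h2

/-- the matrix `g_j x^T` -/
def oI (j : ℕ) (x : Fin 3 → ℤ) : IM := fun i k => gvI j i * x k

theorem shl (n k : ℕ) : Nat.shiftLeft n k = n * 2 ^ k := Nat.shiftLeft_eq n k

theorem shl_YY (n s : ℕ) : Nat.shiftLeft n (Nat.mul 17920 s) = YY ^ (7 * s) * n := by
  have : Nat.mul 17920 s = 2560 * (7 * s) := by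
    show 17920 * s = _
    ring
  rw [this, shl, YY_pow, mul_comm]

theorem P1 : p2 2560 = YY ^ 1 := p2_YY 1

theorem P2 : p2 5120 = YY ^ 2 := p2_YY 2

/-- the seven blocks of a matrix with the rows `± x` -/
theorem pc_rows (s : Fin 5) (v : Vc) (x : Fin 3 → ℤ) (p : ℕ) (hv : VR v x p) (C : IM)
    (q : Fin 3 → Bool) (hC : ∀ i k, C i k = (if q i then 1 else -1) * x k) (n : ℕ)
    (hn : n = ∑ i : Fin 3, (if q i then v.U else v.N) * YY ^ (i : ℕ)) :
    Pc (YY ^ (7 * (s : ℕ)) * n) (one5 s C) (one5 s 0) p := by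
  obtain ⟨a, b, c, d, h1, h2, h3, h4, h5, h6, h7, h8, h9, h10⟩ := hv.ex
  obtain ⟨A, hA⟩ : ∃ A : Fin 3 → ℕ, A = fun i => if q i then a else c := ⟨_, rfl⟩
  obtain ⟨B, hB⟩ : ∃ B : Fin 3 → ℕ, B = fun i => if q i then b else d := ⟨_, rfl⟩
  have hrow : ∀ i, (if q i then v.U else v.N) = A i + YY ^ 3 * B i := by
    intro i
    rw [hA, hB]
    by_cases hq : q i
    · simp only [hq, if_true]; exact h1
    · simp only [hq]; exact h2
  have hAp : ∀ i, A i ≤ p * R9 := by
    intro i
    rw [hA]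
    by_cases hq : q i
    · simp only [hq, if_true]; exact h3
    · simp only [hq]; exact h5
  have hBp : ∀ i, B i ≤ p * R9 := by
    intro i
    rw [hB]
    by_cases hq : q i
    · simp only [hq, if_true]; exact h4
    · simp only [hq]; exact h6
  have hAx : ∀ i, (A i : ℤ) ≡ rowX C i [ZMOD R9] := by
    intro i
    unfold rowX
    simp only [hC]
    rw [hA]
    by_cases hq : q i
    · simp only [hq, if_true, one_mul]; exact h7
    · simp only [hq, Bool.false_eq_true, if_false, neg_mul, one_mul, Finset.sum_neg_distrib]; exact h9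
  have hBx : ∀ i, (B i : ℤ) ≡ rowY C i [ZMOD R9] := by
    intro i
    unfold rowY
    simp only [hC]
    rw [hB]
    by_cases hq : q i
    · simp only [hq, if_true, one_mul]; exact h8
    · simp only [hq, Bool.false_eq_true, if_false, neg_mul, one_mul, Finset.sum_neg_distrib]; exact h10
  obtain ⟨e, he⟩ : ∃ e : ℕ → ℕ, e = fun j => match j with
    | 0 => A 0 | 1 => A 1 | 2 => A 2 | 3 => B 0 | 4 => B 1 | 5 => B 2 | _ => 0 := ⟨_, rfl⟩
  refine pc_part s n e C 0 p ?_ ?_ ?_
  · rw [hn, Fin.sum_univ_three, hrow 0, hrow 1, hrow 2]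
    simp only [Finset.sum_range_succ, Finset.sum_range_zero, he, Fin.val_zero, Fin.val_one, Fin.val_two]
    ring
  · intro j hj
    rw [he]
    interval_cases j
    · exact hAp 0
    · exact hAp 1
    · exact hAp 2
    · exact hBp 0
    · exact hBp 1
    · exact hBp 2
    · exact Nat.zero_le _
  · constructor
    · intro i
      rw [he]
      fin_cases i
      · exact hAx 0
      · exact hAx 1
      · exact hAx 2
    · intro i
      rw [he]
      fin_cases i
      · exact hBx 0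
      · exact hBx 1
      · exact hBx 2
    · rw [he]
      exact Int.ModEq.refl _

/-- **the outer product** -/
theorem pc_out (s : Fin 5) (j : ℕ) (v : Vc) (x : Fin 3 → ℤ) (p : ℕ) (hv : VR v x p) :
    Pc (outI s j v) (one5 s (oI j x)) (one5 s 0) p := by
  unfold outI
  rw [shl_YY]
  rcases j with _ | _ | _ | j
  · refine pc_rows s v x p hv _ (fun _ => true) (fun i k => by simp [oI, gvI]) _ ?_
    show v.U * (1 + (p2 2560 + p2 5120)) = _
    rw [P1, P2]
    simp [Fin.sum_univ_three]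
    ring
  · refine pc_rows s v x p hv _ (fun i => decide (i = 0)) (fun i k => by simp [oI, gvI]) _ ?_
    show v.U + v.N * (p2 2560 + p2 5120) = _
    rw [P1, P2]
    simp [Fin.sum_univ_three]
    ring
  · refine pc_rows s v x p hv _ (fun i => decide (i = 1)) (fun i k => by simp [oI, gvI]) _ ?_
    show v.U * p2 2560 + v.N * (1 + p2 5120) = _
    rw [P1, P2]
    simp [Fin.sum_univ_three]
    ring
  · refine pc_rows s v x p hv _ (fun i => decide (i = 2)) (fun i k => by simp [oI, gvI]) _ ?_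
    show v.U * p2 5120 + v.N * (1 + p2 2560) = _
    rw [P1, P2]
    simp [Fin.sum_univ_three]
    ring

theorem kap_shift (s k : ℕ) : Nat.shiftLeft k (Nat.add (Nat.mul 17920 s) 15360) =
    YY ^ (7 * s) * (k * YY ^ 6) := by
  have : Nat.add (Nat.mul 17920 s) 15360 = 2560 * (7 * s + 6) := by
    show 17920 * s + 15360 = _
    ring
  rw [this, shl, ← YY_pow, pow_add]
  ring

theorem pc_kap_aux (s : Fin 5) (n : ℕ) (k : ℤ) (p : ℕ) (hn : n ≤ p * R9) (hk : (n : ℤ) ≡ k [ZMOD R9]) :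
    Pc (YY ^ (7 * (s : ℕ)) * (n * YY ^ 6)) (one5 s 0) (one5 s k) p := by
  refine pc_part s _ (fun j => if j = 6 then n else 0) 0 k p ?_ ?_ ?_
  · simp
  · intro j hj
    by_cases h : j = 6
    · simp only [h, if_true]; exact hn
    · simp [h]
  · constructor
    · intro i
      have h6 : 0 + (i : ℕ) ≠ 6 := by omega
      simp only [h6, if_false, rowX]
      simp
    · intro i
      have h6 : 0 + 3 + (i : ℕ) ≠ 6 := by omega
      simp only [h6, if_false, rowY]
      simp
    · simpa using hk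

/-- **right sides** -/
theorem pc_kap (s : Fin 5) (k : ℕ) (hk : k ≤ R9) : Pc (kapI s k) (one5 s 0) (one5 s (k : ℤ)) 1 := by
  unfold kapI
  rw [kap_shift]
  exact pc_kap_aux s k k 1 (by omega) (Int.ModEq.refl _)

theorem pc_kapN (s : Fin 5) (k : ℕ) (hk : k ≤ R9) : Pc (kapN s k) (one5 s 0) (one5 s (-(k : ℤ))) 1 := by
  unfold kapN
  rw [kap_shift]
  refine pc_kap_aux s (R9 - k) _ 1 (by omega) ?_
  rw [Nat.cast_sub hk]
  have hz : ((R9 : ℕ) : ℤ) ≡ 0 [ZMOD R9] := by
    rw [Int.modEq_zero_iff_dvd]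
  have := Int.ModEq.sub hz (Int.ModEq.refl (k : ℤ))
  rwa [zero_sub] at this

/-- the flat blocks -/
def flat (e : Fin 5 → ℕ → ℕ) (X : ℕ) (i : ℕ) : ℕ :=
  if i < 7 then e 0 i else if i < 14 then e 1 (i - 7) else if i < 21 then e 2 (i - 14) else
    if i < 28 then e 3 (i - 21) else if i < 35 then e 4 (i - 28) else if i = 35 then X else 1

theorem seven_shift {e f : ℕ → ℕ} {o : ℕ} {C : IM} {k : ℤ} (h : Seven e 0 C k)
    (hf : ∀ j < 7, f (o + j) = e j) : Seven f o C k := by
  constructor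
  · intro i
    rw [hf i (by omega)]
    have := h.x i
    rwa [Nat.zero_add] at this
  · intro i
    rw [show o + 3 + (i : ℕ) = o + (3 + i) by omega, hf _ (by omega)]
    have := h.y i
    rwa [Nat.zero_add] at this
  · rw [hf 6 (by norm_num)]
    exact h.k

/-- **from pieces to a fact** -/
theorem Pc.fact {E : RD} {N : ℕ} {C : Fin 5 → IM} {k : Fin 5 → ℤ} {p X : ℕ} (h : Pc N C k p)
    (hp : p ≤ 2 ^ 60) (hX : X ≤ 1) (hC : ∀ s i j, |C s i j| ≤ 2 ^ 14) (hk : ∀ s, |k s| ≤ 2 ^ 20)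
    (mix : aff E.c (fun s => (k s.castSucc : ℝ)) + E.S2 * (E.om * k 4) ≤
      aff E.c (fun s => pr E.F (C s.castSucc)) + E.S2 * pr E.G (C 4))
    (sep : X = 0 → aff E.c (fun s => (k s.castSucc : ℝ)) ≤ aff E.c (fun s => pr E.F (C s.castSucc)) ∧
      E.om * k 4 ≤ pr E.G (C 4)) :
    IsFact E (N + (X * YY ^ 35 + YY ^ 36)) := by
  obtain ⟨e, h1, h2, h3⟩ := h
  refine ⟨fun s => C s.castSucc, fun s => k s.castSucc, C 4, k 4, X, ?_⟩
  constructor
  · refine ⟨flat e X, ?_, ?_, ?_, ?_, ?_, ?_⟩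
    · rw [h1]
      have e5 : ∑ s : Fin 5, YY ^ (7 * (s : ℕ)) * ∑ j ∈ range 7, e s j * YY ^ j =
          YY ^ 0 * (∑ j ∈ range 7, e 0 j * YY ^ j) + YY ^ 7 * (∑ j ∈ range 7, e 1 j * YY ^ j) +
          YY ^ 14 * (∑ j ∈ range 7, e 2 j * YY ^ j) + YY ^ 21 * (∑ j ∈ range 7, e 3 j * YY ^ j) +
          YY ^ 28 * (∑ j ∈ range 7, e 4 j * YY ^ j) := by
        rw [Fin.sum_univ_five]
        rfl
      rw [e5]
      have e37 : ∀ m, ∑ i ∈ range (m + 7), flat e X i * YY ^ i = ∑ i ∈ range m, flat e X i * YY ^ i +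
          YY ^ m * ∑ j ∈ range 7, flat e X (m + j) * YY ^ j := by
        intro m
        rw [Finset.sum_range_add, Finset.mul_sum]
        congr 1
        refine Finset.sum_congr rfl fun j _ => ?_
        rw [pow_add]
        ring
      have blk : ∀ (m : ℕ) (s : Fin 5), (∀ j < 7, flat e X (m + j) = e s j) →
          ∑ j ∈ range 7, flat e X (m + j) * YY ^ j = ∑ j ∈ range 7, e s j * YY ^ j := by
        intro m s hs
        exact Finset.sum_congr rfl fun j hj => by rw [hs j (Finset.mem_range.mp hj)]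
      have f0 : ∀ j < 7, flat e X (0 + j) = e 0 j := by
        intro j hj
        unfold flat
        rw [if_pos (by omega), Nat.zero_add]
      have f1 : ∀ j < 7, flat e X (7 + j) = e 1 j := by
        intro j hj
        unfold flat
        rw [if_neg (by omega), if_pos (by omega), Nat.add_sub_cancel_left]
      have f2 : ∀ j < 7, flat e X (14 + j) = e 2 j := by
        intro j hj
        unfold flat
        rw [if_neg (by omega), if_neg (by omega), if_pos (by omega), Nat.add_sub_cancel_left]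
      have f3 : ∀ j < 7, flat e X (21 + j) = e 3 j := by
        intro j hj
        unfold flat
        rw [if_neg (by omega), if_neg (by omega), if_neg (by omega), if_pos (by omega),
          Nat.add_sub_cancel_left]
      have f4 : ∀ j < 7, flat e X (28 + j) = e 4 j := by
        intro j hj
        unfold flat
        rw [if_neg (by omega), if_neg (by omega), if_neg (by omega), if_neg (by omega),
          if_pos (by omega), Nat.add_sub_cancel_left]
      have g35 : flat e X 35 = X := rfl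
      have g36 : flat e X 36 = 1 := rfl
      have t : ∑ i ∈ range 37, flat e X i * YY ^ i = ∑ i ∈ range 35, flat e X i * YY ^ i +
          X * YY ^ 35 + 1 * YY ^ 36 := by
        rw [Finset.sum_range_succ, Finset.sum_range_succ, g35, g36]
      have t35 := e37 28
      have t28 := e37 21
      have t21 := e37 14
      have t14 := e37 7
      have t7 := e37 0
      rw [blk 28 4 f4] at t35
      rw [blk 21 3 f3] at t28
      rw [blk 14 2 f2] at t21
      rw [blk 7 1 f1] at t14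
      rw [blk 0 0 f0, Finset.sum_range_zero] at t7
      simp only [Nat.reduceAdd] at t35 t28 t21 t14 t7
      rw [t, t35, t28, t21, t14, t7]
      ring
    · intro i hi
      have hb : ∀ s, ∀ j < 7, e s j ≤ 1 * RB := by
        intro s j hj
        refine (h2 s j hj).trans ?_
        rw [one_mul]
        exact Nat.mul_le_mul_right _ hp
      have hX' : X ≤ 1 * RB := by
        have : 1 ≤ RB := by
          have := R9_le_RB
          have := R9_pos
          omega
        omega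
      unfold flat
      split_ifs
      · exact hb 0 _ (by omega)
      · exact hb 1 _ (by omega)
      · exact hb 2 _ (by omega)
      · exact hb 3 _ (by omega)
      · exact hb 4 _ (by omega)
      · exact hX'
      · omega
    · rfl
    · rfl
    · intro s
      refine seven_shift (h3 s.castSucc) fun j hj => ?_
      fin_cases s
      · unfold flat
        rw [if_pos (by simp; omega)]
        simp
      · unfold flat
        rw [if_neg (by simp), if_pos (by simp; omega)]
        simp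
      · unfold flat
        rw [if_neg (by simp; omega), if_neg (by simp), if_pos (by simp; omega)]
        simp
      · unfold flat
        rw [if_neg (by simp; omega), if_neg (by simp; omega), if_neg (by simp), if_pos (by simp; omega)]
        simp
    · refine seven_shift (h3 4) fun j hj => ?_
      unfold flat
      rw [if_neg (by omega), if_neg (by omega), if_neg (by omega), if_neg (by omega),
        if_pos (by omega), Nat.add_sub_cancel_left]
  · intro s i j
    simpa using hC s.castSucc i j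
  · intro i j
    simpa using hC 4 i j
  · intro s
    simpa using hk s.castSucc
  · simpa using hk 4
  · exact hX
  · exact mix
  · exact sep

end Pool.Agent.Helper80.TP
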