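import Mathlib
import Pool.Agent.Helper28.TP.EngSound
import Pool.Agent.Helper80.TP.Comb

/-!
# The leaf of the engine: weighted sum of the facts, then the test at the corners of the box

Token `r` of a leaf, from the low end: 5 bits: number `n` of the scales; 3 bits: the parameters of
which both ends are tested; then the token of the header, up to bit `off + sw * n`; then pairs (5 bits
skip, 13 bits weight), the facts counted from the bottom of the environment.
-/

set_option autoImplicit false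

namespace Pool.Agent.Helper80.TP

open Finset
open Pool.Agent.Helper28.TP (Ivl InBox nth)

/-- the environment: facts and tags -/
inductive Item
  | f (n : Nat)
  | t (n : Nat)

/-- equality of items -/
def eqItem : Item → Item → Bool
  | .f n, .f m => Nat.beq n m
  | .t n, .t m => Nat.beq n m
  | _, _ => false

theorem eqItem_eq (a b : Item) (h : eqItem a b = true) : a = b := by
  cases a <;> cases b
  · exact congrArg _ (Nat.eq_of_beq_eq_true h)
  · cases h
  · cases h
  · exact congrArg _ (Nat.eq_of_beq_eq_true h)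

/-- when an item holds -/
def Item.ok (E : RD) (T : Nat → Prop) : Item → Prop
  | .f n => IsFact E n
  | .t n => T n

/-- evaluate the first argument first -/
noncomputable def force {β : Type} (x : Nat) (k : Nat → β) : β :=
  @Nat.rec (fun _ => β) (k 0) (fun n _ => k n) (Nat.succ x)

theorem force_eq {β : Type} (x : Nat) (k : Nat → β) : force x k = k x := rfl

/-- the weighted sum, from the bottom of the list: skip `n` items, weight `w`, rest `r` of the token,
sum `a`; `fin` is applied to the sum -/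
noncomputable def comb (fin : Nat → Bool) (env : List Item) : (Nat → Nat → Nat → Nat → Bool) →
    Nat → Nat → Nat → Nat → Bool :=
  @List.rec Item (fun _ => (Nat → Nat → Nat → Nat → Bool) → Nat → Nat → Nat → Nat → Bool)
    (fun k => k)
    (fun a _ ih k => ih (fun n w r acc => @Nat.rec (fun _ => Bool)
      (@Item.rec (fun _ => Bool)
        (fun N => @Nat.rec (fun _ => Bool) (fin (Nat.add acc (Nat.mul w N)))
          (fun _ _ => k (Nat.mod r 32) (Nat.mod (Nat.shiftRight r 5) 8192) (Nat.shiftRight r 18)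
            (Nat.add acc (Nat.mul w N))) r)
        (fun _ => false) a)
      (fun m _ => k m w r acc) n)) env

/-- the sum is a combination of facts -/
def IsSR (E : RD) (acc : Nat) : Prop := ∃ W C k M u X, SR E acc W C k M u X

theorem isSR_zero (E : RD) : IsSR E 0 := ⟨0, _, _, _, _, 0, sr_zero E⟩

theorem comb_sr (E : RD) (T : Nat → Prop) (fin : Nat → Bool) (env : List Item)
    (henv : ∀ i ∈ env, i.ok E T) : ∀ (k : Nat → Nat → Nat → Nat → Bool),
    (∀ n w r acc, IsSR E acc → k n w r acc = true → ∃ acc', IsSR E acc' ∧ fin acc' = true) →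
    ∀ n w r acc, IsSR E acc → comb fin env k n w r acc = true → ∃ acc', IsSR E acc' ∧ fin acc' = true := by
  induction env with
  | nil => exact fun k hk => hk
  | cons a l ih =>
    intro k hk
    refine ih (fun i hi => henv i (List.mem_cons_of_mem _ hi)) _ ?_
    intro n w r acc hacc h
    cases n with
    | succ m => exact hk m w r acc hacc h
    | zero =>
      cases a with
      | t N => exact Bool.noConfusion (show false = true from h)
      | f N =>
        have hN : IsFact E N := henv (Item.f N) List.mem_cons_self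
        obtain ⟨W, C, k', M, u, X, h1⟩ := hacc
        obtain ⟨D, l', L, v, Z, h2⟩ := hN
        have h3 : IsSR E (Nat.add acc (Nat.mul w N)) := ⟨_, _, _, _, _, _, h1.comb w h2⟩
        cases r with
        | zero => exact ⟨_, h3, h⟩
        | succ r => exact hk _ _ _ _ h3 h

/-- small digits are determined by the residue of a row -/
theorem row_zero (C : IM) (hC : ∀ i j, |C i j| ≤ 2 ^ 60) (i : Fin 3)
    (h : rowX C i ≡ 0 [ZMOD R9]) : ∀ j, C i j = 0 := by
  have hB : (BB : ℤ) = 2 ^ 256 := by rw [BB_eq]; push_cast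
  have e1 : rowX C i = C i 0 + C i 1 * (BB : ℤ) + C i 2 * (BB : ℤ) ^ 2 := by
    simp [rowX, Fin.sum_univ_three]
  have hR : (R9 : ℤ) = (BB : ℤ) ^ 9 := by
    have h9 : R9 = BB ^ 9 := by rw [R9_eq, BB_eq, ← pow_mul]
    exact_mod_cast h9
  have hdvd : (BB : ℤ) ^ 9 ∣ rowX C i := by
    rw [← hR]
    exact Int.modEq_zero_iff_dvd.mp h
  have key : ∀ a b : ℤ, |a| ≤ 2 ^ 60 → (BB : ℤ) ∣ a + b * BB → a = 0 := by
    intro a b ha hd
    have hd' : (BB : ℤ) ∣ a := (Int.dvd_add_left (Dvd.intro_left b rfl)).mp hd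
    refine Int.eq_zero_of_abs_lt_dvd hd' ?_
    rw [hB]
    exact lt_of_le_of_lt ha (by norm_num)
  have hB0 : (BB : ℤ) ≠ 0 := by rw [hB]; positivity
  have h0 : C i 0 = 0 := by
    refine key _ (C i 1 + C i 2 * BB) (hC i 0) ?_
    have : C i 0 + (C i 1 + C i 2 * BB) * BB = rowX C i := by rw [e1]; ring
    rw [this]
    exact (Dvd.intro_left ((BB : ℤ) ^ 8) (by ring)).trans hdvd
  have h1 : C i 1 = 0 := by
    refine key _ (C i 2) (hC i 1) ?_
    have h2 : (BB : ℤ) * (BB ^ 8) ∣ BB * (C i 1 + C i 2 * BB) := by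
      have : (BB : ℤ) * (C i 1 + C i 2 * BB) = rowX C i := by rw [e1, h0]; ring
      rw [this, show (BB : ℤ) * BB ^ 8 = BB ^ 9 by ring]
      exact hdvd
    have h3 := Int.dvd_of_mul_dvd_mul_left hB0 h2
    exact (Dvd.intro_left ((BB : ℤ) ^ 7) (by ring)).trans h3
  have h2 : C i 2 = 0 := by
    refine key _ 0 (hC i 2) ?_
    have h2 : (BB : ℤ) ^ 2 * (BB ^ 7) ∣ BB ^ 2 * (C i 2 + 0 * BB) := by
      have : (BB : ℤ) ^ 2 * (C i 2 + 0 * BB) = rowX C i := by rw [e1, h0, h1]; ring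
      rw [this, show (BB : ℤ) ^ 2 * BB ^ 7 = BB ^ 9 by ring]
      exact hdvd
    have h3 := Int.dvd_of_mul_dvd_mul_left (pow_ne_zero 2 hB0) h2
    exact (Dvd.intro_left ((BB : ℤ) ^ 6) (by ring)).trans h3
  intro j
  fin_cases j
  · exact h0
  · exact h1
  · exact h2

theorem k_zero (k : ℤ) (hk : |k| ≤ 2 ^ 60) (h : k ≡ 0 [ZMOD R9]) : k = 0 := by
  have hd : (R9 : ℤ) ∣ k := Int.modEq_zero_iff_dvd.mp h
  refine Int.eq_zero_of_abs_lt_dvd hd ?_
  have h9 : (2 : ℕ) ^ 60 < R9 := by norm_num [R9]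
  refine lt_of_le_of_lt hk ?_
  exact_mod_cast h9

/-- the residues determine small data -/
theorem Seven.unique {e : ℕ → ℕ} {C D : IM} {k l : ℤ} (h : Seven e 0 C k) (h' : Seven e 0 D l)
    (hC : ∀ i j, |C i j| ≤ 2 ^ 52) (hD : ∀ i j, |D i j| ≤ 2 ^ 52) (hk : |k| ≤ 2 ^ 58)
    (hl : |l| ≤ 2 ^ 58) : C = D ∧ k = l := by
  constructor
  · funext i j
    have h1 : rowX (fun i j => C i j - D i j) i ≡ 0 [ZMOD R9] := by
      have e1 : rowX (fun i j => C i j - D i j) i = rowX C i - rowX D i := by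
        simp only [rowX, Fin.sum_univ_three]; ring
      rw [e1]
      have := Int.ModEq.sub ((h.x i).symm.trans (h'.x i)) (Int.ModEq.refl (rowX D i))
      rwa [sub_self] at this
    have h2 := row_zero (fun i j => C i j - D i j) (fun i j => by
      have a1 := hC i j
      have a2 := hD i j
      rw [abs_le] at a1 a2 ⊢
      constructor <;> linarith [a1.1, a1.2, a2.1, a2.2]) i h1 j
    linarith
  · have h1 : k - l ≡ 0 [ZMOD R9] := by
      have := Int.ModEq.sub (h.k.symm.trans h'.k) (Int.ModEq.refl l)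
      rwa [sub_self] at this
    have h2 := k_zero (k - l) (by
      rw [abs_le] at hk hl ⊢
      constructor <;> linarith [hk.1, hk.2, hl.1, hl.2]) h1
    linarith

/-- the inequality of the test -/
def Hit (E : RD) (σ : ℝ) (C : IM) (k : ℤ) (M : IM) (u : ℤ) : Prop :=
  pr E.F C + σ * pr E.G M < k + σ * (E.om * u)

/-- the sizes -/
def Small (C : IM) (k : ℤ) (M : IM) (u : ℤ) : Prop :=
  (∀ i j, |C i j| ≤ 2 ^ 52) ∧ |k| ≤ 2 ^ 58 ∧ (∀ i j, |M i j| ≤ 2 ^ 50) ∧ |u| ≤ 2 ^ 56

section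

variable {V H : Type}

/-- the type of the test -/
abbrev FL (V H : Type) := List V → H → Nat → Nat → Nat → Nat → Nat → Nat → Nat → Nat → Nat → Nat → Nat →
  Nat → Nat → Nat → Nat → Bool

/-- the test with two sequences -/
def flE (fl : FL V H) (cs : List V) (h : H) (e f : ℕ → ℕ) (D : ℕ) : Bool :=
  fl cs h (e 0) (e 1) (e 2) (e 3) (e 4) (e 5) (e 6) (f 0) (f 1) (f 2) (f 3) (f 4) (f 5) (f 6) D

/-- what the test proves -/
structure FOK (E : RD) (fl : FL V H) (cs : List V) (h : H) (m : ℕ) : Prop where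
  A : m = 0 → ∀ (e f : ℕ → ℕ) (C : IM) (k : ℤ) (M : IM) (u : ℤ) (D : ℕ), Seven e 0 C k → Seven f 0 M u →
    Small C k M u → flE fl cs h e f D = true → ∃ σ : ℝ, 0 < σ ∧ Hit E σ C k M u
  B : 1 ≤ m → ∃ σ : ℝ, 0 < σ ∧ (2 ≤ m → σ = E.S2) ∧
    ∀ (e f : ℕ → ℕ) (C : IM) (k : ℤ) (M : IM) (u : ℤ) (D : ℕ), Seven e 0 C k → Seven f 0 M u →
    Small C k M u → flE fl cs h e f D = true → Hit E σ C k M u

/-- a Newton step for the square root -/
def nw (x s : Nat) : Nat := Nat.shiftRight (Nat.add s (Nat.div x s)) 1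

/-- start of the Newton steps -/
def nw0 (x : Nat) : Nat := Nat.shiftLeft 3 (Nat.sub (Nat.shiftRight (Nat.log2 x) 1) 1)

/-- slightly smaller -/
def nw1 (s : Nat) : Nat := Nat.sub s (Nat.add (Nat.shiftRight s 32) 2)

/-- the bound from the right sides, about `sqrt (18464 k u / 169)`, is given to `c` -/
noncomputable def dvK (k u : Nat) (c : Nat → Bool) : Bool :=
  force (Nat.div (Nat.mul 18464 (Nat.mul k u)) 169) fun x => force (nw0 x) fun s =>
  force (nw x s) fun s => force (nw x s) fun s => force (nw x s) fun s => force (nw x s) fun s =>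
  force (nw1 s) c

theorem dvK_eq (k u : Nat) (c : Nat → Bool) : ∃ D, dvK k u c = c D := ⟨_, rfl⟩

/-- the test at a corner of the box; `a` is the sum at the corner, `b` the second part -/
noncomputable def call (fl : FL V H) (cs : List V) (h : H) (b a : Nat) : Bool :=
  force (bl a 15360) fun ka => force (bl b 15360) fun mu => dvK ka mu fun D =>
  force (bl a 0) fun x0 => force (bl a 2560) fun x1 => force (bl a 5120) fun x2 =>
  force (bl a 7680) fun y0 => force (bl a 10240) fun y1 => force (bl a 12800) fun y2 =>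
  force (bl b 0) fun z0 => force (bl b 2560) fun z1 => force (bl b 5120) fun z2 =>
  force (bl b 7680) fun w0 => force (bl b 10240) fun w1 => force (bl b 12800) fun w2 =>
  fl cs h x0 x1 x2 y0 y1 y2 ka z0 z1 z2 w0 w1 w2 mu D

theorem call_eq (fl : FL V H) (cs : List V) (h : H) (b a : Nat) : ∃ D,
    call fl cs h b a = flE fl cs h (fun i => bl a (2560 * i)) (fun i => bl b (2560 * i)) D := ⟨_, rfl⟩

/-- one parameter: both ends (`d` is not zero) or one end, if the ends are equal or the part is zero -/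
noncomputable def stepP (d l h P a : Nat) (k : Nat → Bool) : Bool :=
  @Nat.rec (fun _ => Bool)
    (@Bool.rec (fun _ => Bool)
      (@Bool.rec (fun _ => Bool) false (k a) (Nat.beq P 0))
      (force (Nat.add a (Nat.mul l P)) k) (Nat.beq l h))
    (fun _ _ => @Bool.rec (fun _ => Bool) false (force (Nat.add a (Nat.mul h P)) k)
      (force (Nat.add a (Nat.mul l P)) k)) d

theorem Bool_rec_true {a b : Bool} (h : @Bool.rec (fun _ => Bool) false a b = true) :
    b = true ∧ a = true := by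
  cases b with
  | false => exact Bool.noConfusion (show false = true from h)
  | true => exact ⟨rfl, h⟩

/-- either both ends are tested, or the two sums are equal -/
theorem stepP_true (d l h P a : Nat) (k : Nat → Bool) (hs : stepP d l h P a k = true) :
    (1 ≤ d ∨ a + l * P = a + h * P) ∧ k (a + l * P) = true ∧ k (a + h * P) = true := by
  have main : ∀ (b1 b2 : Bool), (b1 = true → l = h) → (b2 = true → P = 0) →
      @Bool.rec (fun _ => Bool) (@Bool.rec (fun _ => Bool) false (k a) b2)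
        (force (Nat.add a (Nat.mul l P)) k) b1 = true →
      (a + l * P = a + h * P) ∧ k (a + l * P) = true := by
    intro b1 b2 h1 h2 h3
    cases b1 with
    | true =>
      have h4 : force (Nat.add a (Nat.mul l P)) k = true := h3
      rw [force_eq] at h4
      exact ⟨by rw [h1 rfl], h4⟩
    | false =>
      have h4 : @Bool.rec (fun _ => Bool) false (k a) b2 = true := h3
      obtain ⟨h5, h6⟩ := Bool_rec_true h4
      have h7 := h2 h5
      exact ⟨by rw [h7, mul_zero, mul_zero], by rw [h7, mul_zero, add_zero]; exact h6⟩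
  cases d with
  | zero =>
    obtain ⟨h1, h2⟩ := main (Nat.beq l h) (Nat.beq P 0) (fun h => Nat.eq_of_beq_eq_true h)
      (fun h => Nat.eq_of_beq_eq_true h) hs
    exact ⟨Or.inr h1, h2, h1 ▸ h2⟩
  | succ d =>
    have h4 : @Bool.rec (fun _ => Bool) false (force (Nat.add a (Nat.mul h P)) k)
      (force (Nat.add a (Nat.mul l P)) k) = true := hs
    obtain ⟨h5, h6⟩ := Bool_rec_true h4
    rw [force_eq] at h5 h6
    exact ⟨Or.inl (by omega), h5, h6⟩

/-- the tests at the corners; `d₁ d₂ d₃` say which parameters have both ends -/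
noncomputable def calls (fl : FL V H) (cs : List V) (h : H) (b a P₁ P₂ P₃ l₁ h₁ l₂ h₂ l₃ h₃ d₁ d₂ d₃ : Nat) :
    Bool :=
  stepP d₁ l₁ h₁ P₁ a fun a => stepP d₂ l₂ h₂ P₂ a fun a => stepP d₃ l₃ h₃ P₃ a fun a =>
    call fl cs h b a

/-- the conditions of the sum and the box; `kd` the parameters with both ends -/
noncomputable def conds (fl : FL V H) (cs : List V) (h : H) (m acc l₁ h₁ l₂ h₂ l₃ h₃ kd : Nat) : Bool :=
  @Bool.rec (fun _ => Bool) false
    (@Bool.rec (fun _ => Bool) false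
      (@Bool.rec (fun _ => Bool) false
        (force (pcM acc) fun b => force (pc0 acc) fun a => force (pc1 acc) fun P₁ =>
          force (pc2 acc) fun P₂ => force (pc3 acc) fun P₃ =>
          calls fl cs h b a P₁ P₂ P₃ l₁ h₁ l₂ h₂ l₃ h₃
          (Nat.mod kd 2) (Nat.mod (Nat.div kd 2) 2) (Nat.div kd 4))
        (@Nat.rec (fun _ => Bool) (Nat.beq kd 0) (fun _ _ => true) m))
      (@Bool.rec (fun _ => Bool) (Nat.beq (bl acc 89600) 0) true (Nat.ble 2 m)))
    (@Bool.rec (fun _ => Bool) false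
      (@Bool.rec (fun _ => Bool) false
        (@Bool.rec (fun _ => Bool) false (okW acc) (Nat.ble h₃ 65536)) (Nat.ble h₂ 65536))
      (Nat.ble h₁ 65536))

/-- the leaf after the header; `w` are the weights -/
noncomputable def leaf2 (fl : FL V H) (cs : List V) (env : List Item) (h : H)
    (m w l₁ h₁ l₂ h₂ l₃ h₃ kd : Nat) : Bool :=
  comb (fun acc => force acc fun acc => conds fl cs h m acc l₁ h₁ l₂ h₂ l₃ h₃ kd) env
    (fun _ _ _ _ => false) (Nat.mod w 32) (Nat.mod (Nat.shiftRight w 5) 8192) (Nat.shiftRight w 18) 0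

/-- the leaf after the box; the weights begin at the bit `off + sw * n` -/
noncomputable def leaf1 (fl : FL V H) (mk : Nat → Option H) (md : H → Nat) (off sw : Nat) (cs : List V)
    (env : List Item) (r l₁ h₁ l₂ h₂ l₃ h₃ : Nat) : Bool :=
  @Option.rec H (fun _ => Bool) false (fun h =>
    force (Nat.shiftRight r (Nat.add off (Nat.mul sw (Nat.mod r 32)))) fun w =>
      leaf2 fl cs env h (md h) w l₁ h₁ l₂ h₂ l₃ h₃ (Nat.mod (Nat.div r 32) 8))
    (mk (Nat.div r 256))

/-- the leaf -/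
noncomputable def leafR (fl : FL V H) (mk : Nat → Option H) (md : H → Nat) (off sw : Nat) (cs : List V)
    (env : List Item) (box : List Ivl) (r : Nat) : Bool :=
  @List.rec Ivl (fun _ => Bool) false
    (fun b₁ box _ => @List.rec Ivl (fun _ => Bool) false
      (fun b₂ box _ => @List.rec Ivl (fun _ => Bool) false
        (fun b₃ _ _ =>
          @Ivl.rec (fun _ => Bool) (fun l₁ h₁ => @Ivl.rec (fun _ => Bool) (fun l₂ h₂ =>
            @Ivl.rec (fun _ => Bool) (fun l₃ h₃ =>
              leaf1 fl mk md off sw cs env r l₁ h₁ l₂ h₂ l₃ h₃) b₃) b₂) b₁) box) box) box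

theorem accJ_three (acc : Nat) (n : Fin 3 → ℕ) :
    accJ acc n = pc0 acc + n 0 * pc1 acc + n 1 * pc2 acc + n 2 * pc3 acc := rfl

/-- **the calls are correct** -/
theorem calls_false {E : RD} {fl : FL V H} {cs : List V} {h : H} {m : ℕ} (hf : FOK E fl cs h m)
    {acc W : ℕ} {C : Fin 4 → IM}
    {k : Fin 4 → ℤ} {M : IM} {u : ℤ} {X : ℕ} (hS : SR E acc W C k M u X) (hW : okW acc = true)
    (hX : X = 0 ∨ 2 ≤ m) (l₁ h₁ l₂ h₂ l₃ h₃ d₁ d₂ d₃ : ℕ) (hh₁ : h₁ ≤ 65536) (hh₂ : h₂ ≤ 65536)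
    (hh₃ : h₃ ≤ 65536) (hm : m = 0 → d₁ = 0 ∧ d₂ = 0 ∧ d₃ = 0)
    (b1 : (l₁ : ℝ) / 65536 ≤ E.c 0) (b2 : E.c 0 ≤ (h₁ : ℝ) / 65536)
    (b3 : (l₂ : ℝ) / 65536 ≤ E.c 1) (b4 : E.c 1 ≤ (h₂ : ℝ) / 65536)
    (b5 : (l₃ : ℝ) / 65536 ≤ E.c 2) (b6 : E.c 2 ≤ (h₃ : ℝ) / 65536)
    (hc : calls fl cs h (pcM acc) (pc0 acc) (pc1 acc) (pc2 acc) (pc3 acc) l₁ h₁ l₂ h₂ l₃ h₃ d₁ d₂ d₃ =
      true) : False := by
  obtain ⟨l, hl⟩ : ∃ l : Fin 3 → ℕ, l = ![l₁, l₂, l₃] := ⟨_, rfl⟩
  obtain ⟨g, hg⟩ : ∃ g : Fin 3 → ℕ, g = ![h₁, h₂, h₃] := ⟨_, rfl⟩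
  have el0 : l 0 = l₁ := by rw [hl]; rfl
  have el1 : l 1 = l₂ := by rw [hl]; rfl
  have el2 : l 2 = l₃ := by rw [hl]; rfl
  have eg0 : g 0 = h₁ := by rw [hg]; rfl
  have eg1 : g 1 = h₂ := by rw [hg]; rfl
  have eg2 : g 2 = h₃ := by rw [hg]; rfl
  have c1 : ∀ i : Fin 3, (l i : ℝ) / 65536 ≤ E.c i := by
    intro i
    fin_cases i
    · rw [show ((⟨0, by norm_num⟩ : Fin 3)) = 0 from rfl, el0]; exact b1
    · rw [show ((⟨1, by norm_num⟩ : Fin 3)) = 1 from rfl, el1]; exact b3
    · rw [show ((⟨2, by norm_num⟩ : Fin 3)) = 2 from rfl, el2]; exact b5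
  have c2 : ∀ i : Fin 3, E.c i ≤ (g i : ℝ) / 65536 := by
    intro i
    fin_cases i
    · rw [show ((⟨0, by norm_num⟩ : Fin 3)) = 0 from rfl, eg0]; exact b2
    · rw [show ((⟨1, by norm_num⟩ : Fin 3)) = 1 from rfl, eg1]; exact b4
    · rw [show ((⟨2, by norm_num⟩ : Fin 3)) = 2 from rfl, eg2]; exact b6
  have hgl : ∀ i, g i ≤ 65536 := by
    intro i
    fin_cases i
    · rw [show ((⟨0, by norm_num⟩ : Fin 3)) = 0 from rfl, eg0]; exact hh₁
    · rw [show ((⟨1, by norm_num⟩ : Fin 3)) = 1 from rfl, eg1]; exact hh₂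
    · rw [show ((⟨2, by norm_num⟩ : Fin 3)) = 2 from rfl, eg2]; exact hh₃
  have hlg : ∀ i, l i ≤ g i := by
    intro i
    have h1 : (l i : ℝ) / 65536 ≤ (g i : ℝ) / 65536 := (c1 i).trans (c2 i)
    have h2 : (l i : ℝ) ≤ g i := by linarith
    exact_mod_cast h2
  have hn : ∀ n : Fin 3 → ℕ, (∀ i, n i = l i ∨ n i = g i) → ∀ i, n i ≤ 65536 := by
    intro n h1 i
    rcases h1 i with h2 | h2
    · rw [h2]; exact (hlg i).trans (hgl i)
    · rw [h2]; exact hgl i
  -- all corners are tested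
  obtain ⟨s1, s2, s3⟩ := stepP_true _ _ _ _ _ _ hc
  obtain ⟨t1, t2, t3⟩ := stepP_true _ _ _ _ _ _ s2
  obtain ⟨t1', t2', t3'⟩ := stepP_true _ _ _ _ _ _ s3
  obtain ⟨u1, u2, u3⟩ := stepP_true _ _ _ _ _ _ t2
  obtain ⟨-, v2, v3⟩ := stepP_true _ _ _ _ _ _ t3
  obtain ⟨-, w2, w3⟩ := stepP_true _ _ _ _ _ _ t2'
  obtain ⟨-, x2, x3⟩ := stepP_true _ _ _ _ _ _ t3'
  have hcall : ∀ n : Fin 3 → ℕ, (∀ i, n i = l i ∨ n i = g i) →
      call fl cs h (pcM acc) (accJ acc n) = true := by
    intro n h1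
    rw [accJ_three]
    have n0 := h1 0
    have n1 := h1 1
    have n2 := h1 2
    rw [el0, eg0] at n0
    rw [el1, eg1] at n1
    rw [el2, eg2] at n2
    rcases n0 with e0 | e0 <;> rcases n1 with e1 | e1 <;> rcases n2 with e2 | e2 <;> rw [e0, e1, e2]
    · exact u2
    · exact u3
    · exact v2
    · exact v3
    · exact w2
    · exact w3
    · exact x2
    · exact x3
  have fin : ∀ σ : ℝ, 0 < σ → (2 ≤ m → σ = E.S2) →
      (∀ n : Fin 3 → ℕ, (∀ i, n i = l i ∨ n i = g i) →
        Hit E σ (CJ C n) (kJ k n) (fun i j => 65536 * M i j) (65536 * u)) → False := by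
    intro σ hσ hm hall
    refine hS.interp σ hσ ?_ l g c1 c2 hall
    rcases hX with h0 | h0
    · exact Or.inl h0
    · exact Or.inr (hm h0)
  rcases Nat.eq_zero_or_pos m with hm0 | hm0
  · obtain ⟨e1, e2, e3⟩ := hm hm0
    have n1 := s1.resolve_left (by omega)
    have n2 := t1.resolve_left (by omega)
    have n2' := t1'.resolve_left (by omega)
    have n3 := u1.resolve_left (by omega)
    have hl' := hcall l fun i => Or.inl rfl
    obtain ⟨D, hD⟩ := call_eq fl cs h (pcM acc) (accJ acc l)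
    rw [hD] at hl'
    obtain ⟨σ, hσ, hhit⟩ := hf.A hm0 _ _ _ _ _ _ _ (hS.corner hW l (hn l fun i => Or.inl rfl)).1
      (hS.corner hW l (hn l fun i => Or.inl rfl)).2 (hS.bounds hW l (hn l fun i => Or.inl rfl)) hl'
    refine fin σ hσ (fun h => by omega) fun n h1 => ?_
    have eJ : accJ acc n = accJ acc l := by
      rw [accJ_three, accJ_three]
      have m0 := h1 0
      have m1 := h1 1
      have m2 := h1 2
      rw [el0, eg0] at m0
      rw [el1, eg1] at m1
      rw [el2, eg2] at m2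
      have p1 : n 0 * pc1 acc = l₁ * pc1 acc := by
        rcases m0 with e | e
        · rw [e]
        · rw [e]; omega
      have p2 : n 1 * pc2 acc = l₂ * pc2 acc := by
        rcases m1 with e | e
        · rw [e]
        · rw [e]; omega
      have p3 : n 2 * pc3 acc = l₃ * pc3 acc := by
        rcases m2 with e | e
        · rw [e]
        · rw [e]; omega
      rw [p1, p2, p3, el0, el1, el2]
    have q1 := (hS.corner hW n (hn n h1)).1
    rw [eJ] at q1
    have q2 := (hS.corner hW l (hn l fun i => Or.inl rfl)).1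
    have r1 := hS.bounds hW n (hn n h1)
    have r2 := hS.bounds hW l (hn l fun i => Or.inl rfl)
    obtain ⟨z1, z2⟩ := q1.unique q2 r1.1 r2.1 r1.2.1 r2.2.1
    rw [z1, z2]
    exact hhit
  · obtain ⟨σ, hσ, h2, h3⟩ := hf.B hm0
    refine fin σ hσ h2 fun n h1 => ?_
    have h4 := hcall n h1
    obtain ⟨D, hD⟩ := call_eq fl cs h (pcM acc) (accJ acc n)
    rw [hD] at h4
    exact h3 _ _ _ _ _ _ _ (hS.corner hW n (hn n h1)).1 (hS.corner hW n (hn n h1)).2
      (hS.bounds hW n (hn n h1)) h4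

theorem rec_true_cases (m kd : ℕ) (h : @Nat.rec (fun _ => Bool) (Nat.beq kd 0) (fun _ _ => true) m = true) :
    m = 0 → kd = 0 := by
  intro hm
  subst hm
  exact Nat.eq_of_beq_eq_true h

theorem rec_or (a b : Bool) (h : @Bool.rec (fun _ => Bool) a true b = true) : b = true ∨ a = true := by
  cases b with
  | true => exact Or.inl rfl
  | false => exact Or.inr h

theorem conds_false {E : RD} {fl : FL V H} {cs : List V} {h : H} {m : ℕ} (hf : FOK E fl cs h m)
    {acc : ℕ} (hS : IsSR E acc) (l₁ h₁ l₂ h₂ l₃ h₃ kd : ℕ)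
    (b1 : (l₁ : ℝ) / 65536 ≤ E.c 0) (b2 : E.c 0 ≤ (h₁ : ℝ) / 65536)
    (b3 : (l₂ : ℝ) / 65536 ≤ E.c 1) (b4 : E.c 1 ≤ (h₂ : ℝ) / 65536)
    (b5 : (l₃ : ℝ) / 65536 ≤ E.c 2) (b6 : E.c 2 ≤ (h₃ : ℝ) / 65536)
    (hc : conds fl cs h m acc l₁ h₁ l₂ h₂ l₃ h₃ kd = true) : False := by
  obtain ⟨W, C, k, M, u, X, hS⟩ := hS
  unfold conds at hc
  obtain ⟨a0, hc⟩ := Bool_rec_true hc
  obtain ⟨a1, a0⟩ := Bool_rec_true a0
  obtain ⟨a2, a0⟩ := Bool_rec_true a0
  obtain ⟨a3, a4⟩ := Bool_rec_true a0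
  obtain ⟨a5, hc⟩ := Bool_rec_true hc
  obtain ⟨a6, hc⟩ := Bool_rec_true hc
  simp only [force_eq] at hc
  have hX : X = 0 ∨ 2 ≤ m := by
    rcases rec_or _ _ a5 with h0 | h0
    · exact Or.inr (Nat.le_of_ble_eq_true h0)
    · exact Or.inl (hS.x_zero a4 (Nat.eq_of_beq_eq_true h0))
  refine calls_false hf hS a4 hX l₁ h₁ l₂ h₂ l₃ h₃ _ _ _ (Nat.le_of_ble_eq_true a1)
    (Nat.le_of_ble_eq_true a2) (Nat.le_of_ble_eq_true a3) ?_ b1 b2 b3 b4 b5 b6 hc
  intro hm
  have := rec_true_cases m kd a6 hm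
  subst this
  exact ⟨rfl, rfl, rfl⟩

/-- **the leaf is correct** -/
theorem leafR_false {E : RD} {T : Nat → Prop} {fl : FL V H} {mk : Nat → Option H} {md : H → Nat}
    {off sw : Nat} {cs : List V} {env : List Item} {box : List Ivl} {r : Nat}
    (hf : ∀ h, mk (Nat.div r 256) = some h → FOK E fl cs h (md h)) (henv : ∀ i ∈ env, i.ok E T)
    (hbox : InBox E.c box) (h : leafR fl mk md off sw cs env box r = true) : False := by
  rcases box with _ | ⟨b, _ | ⟨b', _ | ⟨b'', box⟩⟩⟩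
  · exact Bool.noConfusion h
  · exact Bool.noConfusion h
  · exact Bool.noConfusion h
  · obtain ⟨l₁, h₁⟩ := b
    obtain ⟨l₂, h₂⟩ := b'
    obtain ⟨l₃, h₃⟩ := b''
    have i1 := hbox 0 ⟨l₁, h₁⟩ rfl
    have i2 := hbox 1 ⟨l₂, h₂⟩ rfl
    have i3 := hbox 2 ⟨l₃, h₃⟩ rfl
    have h' : leaf1 fl mk md off sw cs env r l₁ h₁ l₂ h₂ l₃ h₃ = true := h
    unfold leaf1 at h'
    generalize hmk : mk (Nat.div r 256) = o at h'
    generalize Nat.shiftRight r (Nat.add off (Nat.mul sw (Nat.mod r 32))) = w at h'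
    generalize Nat.mod (Nat.div r 32) 8 = kd at h'
    cases o with
    | none => exact Bool.noConfusion h'
    | some hd =>
      have h1' : force w (fun w => leaf2 fl cs env hd (md hd) w l₁ h₁ l₂ h₂ l₃ h₃ kd) = true := h'
      rw [force_eq] at h1'
      unfold leaf2 at h1'
      obtain ⟨acc, ha, hc⟩ := comb_sr E T _ env henv _ (fun _ _ _ _ _ h => Bool.noConfusion h)
        _ _ _ _ (isSR_zero E) h1'
      rw [force_eq] at hc
      exact conds_false (hf hd hmk) ha l₁ h₁ l₂ h₂ l₃ h₃ kd i1.1 i1.2 i2.1 i2.2 i3.1 i3.2 hc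

end

end Pool.Agent.Helper80.TP
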