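import Pool.Agent.Helper80.TP.FEng

/-!
# The engine with reuse of certificates

Tokens as in `run`; a token `8 k + 5` is a leaf with the certificate number `k` of the list of the
certificates met so far (the most recent one first).
-/

set_option autoImplicit false

namespace Pool.Agent.Helper80.TP

open Pool.Agent.Helper28.TP

section

variable {V I : Type}

/-- the machine with the list of the certificates -/
noncomputable def runC (mid : V → V → Option V) (leaf : List V → List I → List Ivl → Nat → Bool)
    (rule : List I → List Ivl → Nat → Option (List (List I)))
    (ref : Nat → List V → List I → List Ivl → Bool) (toks : List Nat) :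
    List (Pool.Agent.Helper28.TP.Task V I) → List Nat → Bool :=
  @List.rec Nat (fun _ => List (Pool.Agent.Helper28.TP.Task V I) → List Nat → Bool)
    (fun st _ => @List.rec (Pool.Agent.Helper28.TP.Task V I) (fun _ => Bool) true (fun _ _ _ => false) st)
    (fun tok _ ih st ce => @List.rec (Pool.Agent.Helper28.TP.Task V I) (fun _ => Bool) false
      (fun t st' _ => @Pool.Agent.Helper28.TP.Task.rec V I (fun _ => Bool) (fun cs env box =>
        @Nat.rec (fun _ => Bool)
          (@Bool.rec (fun _ => Bool) false (ih st' (Nat.div tok 8 :: ce)) (leaf cs env box (Nat.div tok 8)))
          (fun k _ => @Nat.rec (fun _ => Bool)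
            (@Bool.rec (fun _ => Bool)
              (nthK cs (Nat.mod (Nat.div tok 8) 8) (fun v =>
                nthK cs (Nat.mod (Nat.div tok 64) 8) (fun w =>
                  @Option.rec V (fun _ => Bool) false (fun m =>
                    ih (⟨setR m cs (Nat.mod (Nat.div tok 8) 8), env, box⟩ ::
                      ⟨setR m cs (Nat.mod (Nat.div tok 64) 8), env, box⟩ :: st') ce) (mid v w))
                  false) false)
              false
              (Nat.beq (Nat.mod (Nat.div tok 8) 8) (Nat.mod (Nat.div tok 64) 8)))
            (fun k _ => @Nat.rec (fun _ => Bool)
              (@Option.rec (List (List I)) (fun _ => Bool) false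
                (fun a => ih (pushK cs env box st' a) ce) (rule env box (Nat.div tok 8)))
              (fun k _ => @Nat.rec (fun _ => Bool)
                (@Bool.rec (fun _ => Bool) false (ih st' ce) (ref (Nat.div tok 8) cs env box))
                (fun k _ => @Nat.rec (fun _ => Bool)
                  (nthK box (Nat.mod (Nat.div tok 8) 8) (fun b =>
                    ih (⟨cs, env, setR ⟨b.lo, Nat.div tok 64⟩ box (Nat.mod (Nat.div tok 8) 8)⟩ ::
                      ⟨cs, env, setR ⟨Nat.div tok 64, b.hi⟩ box (Nat.mod (Nat.div tok 8) 8)⟩ :: st') ce)
                    false)
                  (fun k _ => @Nat.rec (fun _ => Bool)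
                    (nthK ce (Nat.div tok 8) (fun r =>
                      @Bool.rec (fun _ => Bool) false (ih st' ce) (leaf cs env box r)) false)
                    (fun _ _ => false) k) k) k) k) k)
          (Nat.mod tok 8)) t) st) toks

theorem run_cons (o : Ops V I) (known : List (Pool.Agent.Helper28.TP.Task V I)) (tok : Nat) (l : List Nat)
    (t : Pool.Agent.Helper28.TP.Task V I) (st : List (Pool.Agent.Helper28.TP.Task V I)) :
    run o known (tok :: l) (t :: st) = match step o known t tok with
      | none => false
      | some n => run o known l (n ++ st) := rfl

theorem mod_mul_8 (r : Nat) : Nat.mod (8 * r) 8 = 0 := Nat.mul_mod_right 8 r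

theorem div_mul_8 (r : Nat) : Nat.div (8 * r) 8 = r := Nat.mul_div_cancel_left r (by decide)

/-- **reuse of certificates is sound** -/
theorem runC_sound (o : Ops V I) (known : List (Pool.Agent.Helper28.TP.Task V I)) (toks : List Nat) :
    ∀ (st : List (Pool.Agent.Helper28.TP.Task V I)) (ce : List Nat),
    runC o.mid (fun cs env box => o.leaf ⟨cs, env, box⟩) o.rule (refO o known) toks st ce = true →
    ∃ toks', run o known toks' st = true := by
  induction toks with
  | nil =>
    intro st ce h
    cases st with
    | nil => exact ⟨[], rfl⟩
    | cons t st => exact Bool.noConfusion (show false = true from h)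
  | cons tok l ih =>
    intro st ce h
    cases st with
    | nil => exact Bool.noConfusion (show false = true from h)
    | cons t st =>
      obtain ⟨cs, env, box⟩ := t
      obtain ⟨R, hR⟩ : ∃ R, R = runC o.mid (fun cs env box => o.leaf ⟨cs, env, box⟩) o.rule
        (refO o known) l := ⟨_, rfl⟩
      have h' : @Nat.rec (fun _ => Bool)
          (@Bool.rec (fun _ => Bool) false (R st (Nat.div tok 8 :: ce))
            (o.leaf ⟨cs, env, box⟩ (Nat.div tok 8)))
          (fun k _ => @Nat.rec (fun _ => Bool)
            (@Bool.rec (fun _ => Bool)
              (nthK cs (Nat.mod (Nat.div tok 8) 8) (fun v =>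
                nthK cs (Nat.mod (Nat.div tok 64) 8) (fun w =>
                  @Option.rec V (fun _ => Bool) false (fun m =>
                    R (⟨setR m cs (Nat.mod (Nat.div tok 8) 8), env, box⟩ ::
                      ⟨setR m cs (Nat.mod (Nat.div tok 64) 8), env, box⟩ :: st) ce) (o.mid v w))
                  false) false)
              false
              (Nat.beq (Nat.mod (Nat.div tok 8) 8) (Nat.mod (Nat.div tok 64) 8)))
            (fun k _ => @Nat.rec (fun _ => Bool)
              (@Option.rec (List (List I)) (fun _ => Bool) false
                (fun a => R (pushK cs env box st a) ce) (o.rule env box (Nat.div tok 8)))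
              (fun k _ => @Nat.rec (fun _ => Bool)
                (@Bool.rec (fun _ => Bool) false (R st ce) (refO o known (Nat.div tok 8) cs env box))
                (fun k _ => @Nat.rec (fun _ => Bool)
                  (nthK box (Nat.mod (Nat.div tok 8) 8) (fun b =>
                    R (⟨cs, env, setR ⟨b.lo, Nat.div tok 64⟩ box (Nat.mod (Nat.div tok 8) 8)⟩ ::
                      ⟨cs, env, setR ⟨Nat.div tok 64, b.hi⟩ box (Nat.mod (Nat.div tok 8) 8)⟩ :: st) ce)
                    false)
                  (fun k _ => @Nat.rec (fun _ => Bool)
                    (nthK ce (Nat.div tok 8) (fun r =>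
                      @Bool.rec (fun _ => Bool) false (R st ce) (o.leaf ⟨cs, env, box⟩ r)) false)
                    (fun _ _ => false) k) k) k) k) k)
          (Nat.mod tok 8) = true := by rw [hR]; exact h
      rw [← hR] at ih
      have fin : ∀ (tok' : Nat) (n : List (Pool.Agent.Helper28.TP.Task V I)) (ce' : List Nat),
          step o known ⟨cs, env, box⟩ tok' = some n → R (n ++ st) ce' = true →
          ∃ toks', run o known toks' (⟨cs, env, box⟩ :: st) = true := by
        intro tok' n ce' h1 h2
        obtain ⟨l', hl'⟩ := ih _ _ h2
        refine ⟨tok' :: l', ?_⟩
        rw [run_cons, h1]
        exact hl'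
      clear h hR
      obtain ⟨d, hd⟩ : ∃ d, d = Nat.mod tok 8 := ⟨_, rfl⟩
      rw [← hd] at h'
      rcases d with _ | _ | _ | _ | _ | _ | d
      · cases h0 : o.leaf ⟨cs, env, box⟩ (Nat.div tok 8) with
        | false =>
          simp only [h0] at h'
          exact Bool.noConfusion h'
        | true =>
          simp only [h0] at h'
          refine fin tok [] _ ?_ h'
          unfold step
          rw [← hd]
          simp only [h0]
      · simp only [nthK_eq, setR_eq] at h'
        cases h0 : Nat.beq (Nat.mod (Nat.div tok 8) 8) (Nat.mod (Nat.div tok 64) 8) with
        | true =>
          simp only [h0] at h'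
          exact Bool.noConfusion h'
        | false =>
          simp only [h0] at h'
          cases h1 : nth cs (Nat.mod (Nat.div tok 8) 8) with
          | none =>
            simp only [h1] at h'
            exact Bool.noConfusion h'
          | some v =>
            simp only [h1] at h'
            cases h2 : nth cs (Nat.mod (Nat.div tok 64) 8) with
            | none =>
              simp only [h2] at h'
              exact Bool.noConfusion h'
            | some w =>
              simp only [h2] at h'
              cases h3 : o.mid v w with
              | none =>
                simp only [h3] at h'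
                exact Bool.noConfusion h'
              | some m =>
                simp only [h3] at h'
                refine fin tok [⟨setn m cs (Nat.mod (Nat.div tok 8) 8), env, box⟩,
                  ⟨setn m cs (Nat.mod (Nat.div tok 64) 8), env, box⟩] ce ?_ h'
                unfold step splitT
                rw [← hd]
                simp only [h0, h1, h2, h3]
      · simp only [pushK_eq] at h'
        cases h0 : o.rule env box (Nat.div tok 8) with
        | none =>
          simp only [h0] at h'
          exact Bool.noConfusion h'
        | some a =>
          simp only [h0] at h'
          refine fin tok _ ce ?_ h'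
          unfold step
          rw [← hd]
          simp only [h0]
      · cases h0 : refO o known (Nat.div tok 8) cs env box with
        | false =>
          simp only [h0] at h'
          exact Bool.noConfusion h'
        | true =>
          simp only [h0] at h'
          refine fin tok [] ce ?_ h'
          unfold step
          rw [← hd]
          unfold refO at h0
          cases h1 : nth known (Nat.div tok 8) with
          | none => rw [h1] at h0; exact Bool.noConfusion h0
          | some u =>
            rw [h1] at h0
            simp only
            simp only [h0]
      · simp only [nthK_eq, setR_eq] at h'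
        cases h0 : nth box (Nat.mod (Nat.div tok 8) 8) with
        | none =>
          simp only [h0] at h'
          exact Bool.noConfusion h'
        | some b =>
          simp only [h0] at h'
          refine fin tok [⟨cs, env, setn ⟨b.lo, Nat.div tok 64⟩ box (Nat.mod (Nat.div tok 8) 8)⟩,
            ⟨cs, env, setn ⟨Nat.div tok 64, b.hi⟩ box (Nat.mod (Nat.div tok 8) 8)⟩] ce ?_ h'
          unfold step splitB
          rw [← hd]
          simp only [h0]
      · simp only [nthK_eq] at h'
        cases h0 : nth ce (Nat.div tok 8) with
        | none =>
          simp only [h0] at h'
          exact Bool.noConfusion h'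
        | some r =>
          simp only [h0] at h'
          cases h1 : o.leaf ⟨cs, env, box⟩ r with
          | false =>
            simp only [h1] at h'
            exact Bool.noConfusion h'
          | true =>
            simp only [h1] at h'
            refine fin (8 * r) [] ce ?_ h'
            unfold step
            rw [mod_mul_8, div_mul_8]
            simp only [h1]
      · exact Bool.noConfusion (show false = true from h')

end

end Pool.Agent.Helper80.TP
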