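import Pool.Agent.Helper28.TP.Eng

/-!
# The engine by raw recursors

`runF` is the same machine as `run` (theorem `runF_eq`), written for the kernel: raw recursors and
continuations.
-/

set_option autoImplicit false

namespace Pool.Agent.Helper80.TP

open Pool.Agent.Helper28.TP

/-- the entry of a list, with continuations -/
noncomputable def nthK {α β : Type} (l : List α) : Nat → (α → β) → β → β :=
  @List.rec α (fun _ => Nat → (α → β) → β → β) (fun _ _ d => d)
    (fun a _ ih n => @Nat.rec (fun _ => (α → β) → β → β) (fun f _ => f a) (fun m _ => ih m) n) l

/-- change an entry -/
noncomputable def setR {α : Type} (x : α) (l : List α) : Nat → List α :=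
  @List.rec α (fun _ => Nat → List α) (fun _ => [])
    (fun a t ih n => @Nat.rec (fun _ => List α) (x :: t) (fun m _ => a :: ih m) n) l

section

variable {V I : Type}

/-- push the children of a branching -/
noncomputable def pushK (cs : List V) (env : List I) (box : List Ivl) (st : List (Pool.Agent.Helper28.TP.Task V I))
    (a : List (List I)) : List (Pool.Agent.Helper28.TP.Task V I) :=
  @List.rec (List I) (fun _ => List (Pool.Agent.Helper28.TP.Task V I)) st
    (fun b _ ih => ⟨cs, @List.rec I (fun _ => List I) env (fun i _ ih' => i :: ih') b, box⟩ :: ih) a

/-- the machine; `leaf`, `mid`, `rule` as in `Ops`, `ref` is the test of a reference -/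
noncomputable def runF (mid : V → V → Option V) (leaf : List V → List I → List Ivl → Nat → Bool)
    (rule : List I → List Ivl → Nat → Option (List (List I)))
    (ref : Nat → List V → List I → List Ivl → Bool) (toks : List Nat) : List (Pool.Agent.Helper28.TP.Task V I) → Bool :=
  @List.rec Nat (fun _ => List (Pool.Agent.Helper28.TP.Task V I) → Bool)
    (fun st => @List.rec (Pool.Agent.Helper28.TP.Task V I) (fun _ => Bool) true (fun _ _ _ => false) st)
    (fun tok _ ih st => @List.rec (Pool.Agent.Helper28.TP.Task V I) (fun _ => Bool) false
      (fun t st' _ => @Pool.Agent.Helper28.TP.Task.rec V I (fun _ => Bool) (fun cs env box =>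
        @Nat.rec (fun _ => Bool)
          (@Bool.rec (fun _ => Bool) false (ih st') (leaf cs env box (Nat.div tok 8)))
          (fun k _ => @Nat.rec (fun _ => Bool)
            (@Bool.rec (fun _ => Bool)
              (nthK cs (Nat.mod (Nat.div tok 8) 8) (fun v =>
                nthK cs (Nat.mod (Nat.div tok 64) 8) (fun w =>
                  @Option.rec V (fun _ => Bool) false (fun m =>
                    ih (⟨setR m cs (Nat.mod (Nat.div tok 8) 8), env, box⟩ ::
                      ⟨setR m cs (Nat.mod (Nat.div tok 64) 8), env, box⟩ :: st')) (mid v w))
                  false) false)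
              false
              (Nat.beq (Nat.mod (Nat.div tok 8) 8) (Nat.mod (Nat.div tok 64) 8)))
            (fun k _ => @Nat.rec (fun _ => Bool)
              (@Option.rec (List (List I)) (fun _ => Bool) false
                (fun a => ih (pushK cs env box st' a)) (rule env box (Nat.div tok 8)))
              (fun k _ => @Nat.rec (fun _ => Bool)
                (@Bool.rec (fun _ => Bool) false (ih st') (ref (Nat.div tok 8) cs env box))
                (fun k _ => @Nat.rec (fun _ => Bool)
                  (nthK box (Nat.mod (Nat.div tok 8) 8) (fun b =>
                    ih (⟨cs, env, setR ⟨b.lo, Nat.div tok 64⟩ box (Nat.mod (Nat.div tok 8) 8)⟩ ::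
                      ⟨cs, env, setR ⟨Nat.div tok 64, b.hi⟩ box (Nat.mod (Nat.div tok 8) 8)⟩ :: st'))
                    false)
                  (fun _ _ => false) k) k) k) k)
          (Nat.mod tok 8)) t) st) toks

theorem nthK_eq {α β : Type} (l : List α) (n : Nat) (f : α → β) (d : β) :
    nthK l n f d = match nth l n with
      | some a => f a
      | none => d := by
  induction l generalizing n with
  | nil => rfl
  | cons a l ih =>
    cases n with
    | zero => rfl
    | succ n => exact ih n

theorem setR_eq {α : Type} (x : α) (l : List α) (n : Nat) : setR x l n = setn x l n := by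
  induction l generalizing n with
  | nil => rfl
  | cons a l ih =>
    cases n with
    | zero => rfl
    | succ n => exact congrArg (List.cons a) (ih n)

theorem appK_eq (env b : List I) :
    @List.rec I (fun _ => List I) env (fun i _ ih' => i :: ih') b = b ++ env := by
  induction b with
  | nil => rfl
  | cons i b ih => exact congrArg (List.cons i) ih

theorem pushK_eq (cs : List V) (env : List I) (box : List Ivl)
    (st : List (Pool.Agent.Helper28.TP.Task V I)) (a : List (List I)) :
    pushK cs env box st a = kids cs env box a ++ st := by
  induction a with
  | nil => rfl
  | cons b a ih =>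
    have h : pushK cs env box st (b :: a) =
        ⟨cs, @List.rec I (fun _ => List I) env (fun i _ ih' => i :: ih') b, box⟩ ::
          pushK cs env box st a := rfl
    rw [h, ih, appK_eq]
    rfl

/-- the test of a reference -/
def refO (o : Ops V I) (known : List (Pool.Agent.Helper28.TP.Task V I)) (k : Nat) (cs : List V)
    (env : List I) (box : List Ivl) : Bool :=
  match nth known k with
  | some u => eqT o.eq o.eqI u ⟨cs, env, box⟩
  | none => false

theorem runF_eq (o : Ops V I) (known : List (Pool.Agent.Helper28.TP.Task V I)) (toks : List Nat)
    (st : List (Pool.Agent.Helper28.TP.Task V I)) :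
    runF o.mid (fun cs env box => o.leaf ⟨cs, env, box⟩) o.rule (refO o known) toks st =
      run o known toks st := by
  induction toks generalizing st with
  | nil =>
    cases st with
    | nil => rfl
    | cons t st => rfl
  | cons tok l ih =>
    cases st with
    | nil => rfl
    | cons t st =>
      obtain ⟨cs, env, box⟩ := t
      have h : run o known (tok :: l) (⟨cs, env, box⟩ :: st) =
        match step o known ⟨cs, env, box⟩ tok with
        | none => false
        | some n => run o known l (n ++ st) := rfl
      rw [h]
      have h' : runF o.mid (fun cs env box => o.leaf ⟨cs, env, box⟩) o.rule (refO o known) (tok :: l)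
          (⟨cs, env, box⟩ :: st) =
        @Nat.rec (fun _ => Bool)
          (@Bool.rec (fun _ => Bool) false
            (runF o.mid (fun cs env box => o.leaf ⟨cs, env, box⟩) o.rule (refO o known) l st)
            (o.leaf ⟨cs, env, box⟩ (Nat.div tok 8)))
          (fun k _ => @Nat.rec (fun _ => Bool)
            (@Bool.rec (fun _ => Bool)
              (nthK cs (Nat.mod (Nat.div tok 8) 8) (fun v =>
                nthK cs (Nat.mod (Nat.div tok 64) 8) (fun w =>
                  @Option.rec V (fun _ => Bool) false (fun m =>
                    runF o.mid (fun cs env box => o.leaf ⟨cs, env, box⟩) o.rule (refO o known) l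
                      (⟨setR m cs (Nat.mod (Nat.div tok 8) 8), env, box⟩ ::
                      ⟨setR m cs (Nat.mod (Nat.div tok 64) 8), env, box⟩ :: st)) (o.mid v w))
                  false) false)
              false
              (Nat.beq (Nat.mod (Nat.div tok 8) 8) (Nat.mod (Nat.div tok 64) 8)))
            (fun k _ => @Nat.rec (fun _ => Bool)
              (@Option.rec (List (List I)) (fun _ => Bool) false
                (fun a => runF o.mid (fun cs env box => o.leaf ⟨cs, env, box⟩) o.rule (refO o known) l
                  (pushK cs env box st a)) (o.rule env box (Nat.div tok 8)))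
              (fun k _ => @Nat.rec (fun _ => Bool)
                (@Bool.rec (fun _ => Bool) false
                  (runF o.mid (fun cs env box => o.leaf ⟨cs, env, box⟩) o.rule (refO o known) l st)
                  (refO o known (Nat.div tok 8) cs env box))
                (fun k _ => @Nat.rec (fun _ => Bool)
                  (nthK box (Nat.mod (Nat.div tok 8) 8) (fun b =>
                    runF o.mid (fun cs env box => o.leaf ⟨cs, env, box⟩) o.rule (refO o known) l
                      (⟨cs, env, setR ⟨b.lo, Nat.div tok 64⟩ box (Nat.mod (Nat.div tok 8) 8)⟩ ::
                      ⟨cs, env, setR ⟨Nat.div tok 64, b.hi⟩ box (Nat.mod (Nat.div tok 8) 8)⟩ :: st))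
                    false)
                  (fun _ _ => false) k) k) k) k)
          (Nat.mod tok 8) := rfl
      rw [h']
      unfold step
      generalize Nat.mod tok 8 = d
      rcases d with _ | _ | _ | _ | _ | d
      · simp only
        cases h0 : o.leaf ⟨cs, env, box⟩ (Nat.div tok 8) with
        | true => exact ih st
        | false => rfl
      · simp only [nthK_eq, setR_eq, splitT]
        cases h0 : Nat.beq (Nat.mod (Nat.div tok 8) 8) (Nat.mod (Nat.div tok 64) 8) with
        | true => cases nth cs (Nat.mod (Nat.div tok 8) 8) <;>
            cases nth cs (Nat.mod (Nat.div tok 64) 8) <;> rfl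
        | false =>
          cases h1 : nth cs (Nat.mod (Nat.div tok 8) 8) with
          | none => cases nth cs (Nat.mod (Nat.div tok 64) 8) <;> rfl
          | some v =>
            cases h2 : nth cs (Nat.mod (Nat.div tok 64) 8) with
            | none => rfl
            | some w =>
              simp only
              cases h3 : o.mid v w with
              | none => rfl
              | some m => exact ih _
      · simp only
        cases h0 : o.rule env box (Nat.div tok 8) with
        | none => rfl
        | some a =>
          simp only [pushK_eq]
          exact ih _
      · simp only [refO]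
        cases h0 : nth known (Nat.div tok 8) with
        | none => rfl
        | some u =>
          simp only
          cases h1 : eqT o.eq o.eqI u ⟨cs, env, box⟩ with
          | true => exact ih st
          | false => rfl
      · simp only [nthK_eq, setR_eq, splitB]
        cases h0 : nth box (Nat.mod (Nat.div tok 8) 8) with
        | none => rfl
        | some b =>
          simp only
          exact ih _
      · rfl

/-- tokens from chunks: `m` tokens of `w` bits in each chunk -/
noncomputable def unpack (w m : Nat) (chunks : List Nat) : List Nat :=
  @List.rec Nat (fun _ => List Nat) []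
    (fun c _ ih => @Nat.rec (fun _ => Nat → List Nat) (fun _ => ih)
      (fun _ ih' c => Nat.mod c (Nat.pow 2 w) :: ih' (Nat.shiftRight c w)) m c) chunks

end

end Pool.Agent.Helper80.TP
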