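import Mathlib

/-!
# Packed integer matrices

A natural number `n` stands for thirty signed digits in base `XX = 2^128` (two's complement, modulo
`XX^30`): three blocks of ten digits; in the block `s` the digit `3 a + b` is the entry `(a, b)` of the
matrix `C s` and the digit `9` is the right side `k s`.
-/

set_option autoImplicit false

namespace Pool.Agent.Helper80.TP

open Finset

/-- the base of the digits -/
def XX : ℕ := 340282366920938463463374607431768211456

/-- the mask of thirty digits -/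
def mask30 : ℕ := 0xffffffffffffffffffffffffffffffffffffffffffffffffffffffffffffffffffffffffffffffffffffffffffffffffffffffffffffffffffffffffffffffffffffffffffffffffffffffffffffffffffffffffffffffffffffffffffffffffffffffffffffffffffffffffffffffffffffffffffffffffffffffffffffffffffffffffffffffffffffffffffffffffffffffffffffffffffffffffffffffffffffffffffffffffffffffffffffffffffffffffffffffffffffffffffffffffffffffffffffffffffffffffffffffffffffffffffffffffffffffffffffffffffffffffffffffffffffffffffffffffffffffffffffffffffffffffffffffffffffffffffffffffffffffffffffffffffffffffffffffffffffffffffffffffffffffffffffffffffffffffffffffffffffffffffffffffffffffffffffffffffffffffffffffffffffffffffffffffffffffffffffffffffffffffffffffffffffffffffffffffffffffffffffffffffffffffffffffffffffffffffffffffffffffffffffffffffffffffffffffffffffffffffffffffffffffffffffffffffffffffffffffffffffffffffffffffffffffffffffffffffffffffffffffffffffffffffffffffffffffffffffffffffffffffffffffffffffffffffffffff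

/-- thirty digits `2^127` -/
def HH : ℕ := 0x800000000000000000000000000000008000000000000000000000000000000080000000000000000000000000000000800000000000000000000000000000008000000000000000000000000000000080000000000000000000000000000000800000000000000000000000000000008000000000000000000000000000000080000000000000000000000000000000800000000000000000000000000000008000000000000000000000000000000080000000000000000000000000000000800000000000000000000000000000008000000000000000000000000000000080000000000000000000000000000000800000000000000000000000000000008000000000000000000000000000000080000000000000000000000000000000800000000000000000000000000000008000000000000000000000000000000080000000000000000000000000000000800000000000000000000000000000008000000000000000000000000000000080000000000000000000000000000000800000000000000000000000000000008000000000000000000000000000000080000000000000000000000000000000800000000000000000000000000000008000000000000000000000000000000080000000000000000000000000000000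

/-- the signed digit `k` of `n` -/
def dec (n k : ℕ) : ℤ := (((n + HH) / XX ^ k % XX : ℕ) : ℤ) - 2 ^ 127

theorem XX_eq : XX = 2 ^ 128 := by norm_num [XX]

theorem XX_pos : 0 < XX := by norm_num [XX]

set_option exponentiation.threshold 4000 in
theorem mask30_eq : mask30 = 2 ^ 3840 - 1 := by norm_num [mask30]

theorem HH_eq : HH = ∑ j ∈ range 30, 2 ^ 127 * XX ^ j := by decide +kernel

theorem HH_int : (HH : ℤ) = ∑ j ∈ range 30, (2 : ℤ) ^ 127 * (XX : ℤ) ^ j := by
  rw [HH_eq]
  push_cast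
  rfl

/-- the mask is the reduction modulo `XX^30` -/
theorem land_mask (n : ℕ) : Nat.land n mask30 = n % XX ^ 30 := by
  rw [mask30_eq, XX_eq, ← pow_mul]
  exact Nat.and_two_pow_sub_one_eq_mod n 3840

/-- digits of an integer -/
theorem digits_of (m : ℕ) (e : ℕ → ℤ) (q N : ℤ)
    (hN : N = ∑ j ∈ range m, e j * (XX : ℤ) ^ j + (XX : ℤ) ^ m * q)
    (he : ∀ j < m, 0 ≤ e j ∧ e j < XX) : ∀ j < m, N / (XX : ℤ) ^ j % XX = e j := by
  have hX : (0 : ℤ) < XX := by exact_mod_cast XX_pos
  obtain ⟨T, hT⟩ : ∃ T : ℕ → ℤ, T = fun k => ∑ j ∈ range (m - k), e (k + j) * (XX : ℤ) ^ j +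
      (XX : ℤ) ^ (m - k) * q := ⟨_, rfl⟩
  have h2 : ∀ k < m, T k = e k + XX * T (k + 1) := by
    intro k hk
    obtain ⟨r, rfl⟩ : ∃ r, m = k + 1 + r := ⟨m - (k + 1), by omega⟩
    have e1 : k + 1 + r - k = r + 1 := by omega
    have e2 : k + 1 + r - (k + 1) = r := by omega
    simp only [hT, e1, e2]
    rw [Finset.sum_range_succ', Nat.add_zero, pow_zero, mul_one, mul_add, Finset.mul_sum]
    have e3 : ∑ j ∈ range r, e (k + (j + 1)) * (XX : ℤ) ^ (j + 1) =
        ∑ j ∈ range r, XX * (e (k + 1 + j) * (XX : ℤ) ^ j) := by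
      refine Finset.sum_congr rfl fun j _ => ?_
      rw [show k + (j + 1) = k + 1 + j by omega]
      ring
    rw [e3]
    ring
  have h1 : ∀ k, k ≤ m → N / (XX : ℤ) ^ k = T k := by
    intro k
    induction k with
    | zero =>
      intro _
      rw [pow_zero, Int.ediv_one, hN, hT]
      simp
    | succ k ih =>
      intro hk
      rw [pow_succ, ← Int.ediv_ediv_of_nonneg (by positivity), ih (by omega), h2 k (by omega),
        Int.add_mul_ediv_left _ _ hX.ne', Int.ediv_eq_zero_of_lt (he k (by omega)).1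
          (he k (by omega)).2, zero_add]
  intro j hj
  rw [h1 j hj.le, h2 j hj, Int.add_mul_emod_self_left]
  exact Int.emod_eq_of_lt (he j hj).1 (he j hj).2

/-- signed digits of a natural number which represents them modulo `XX^m` -/
theorem digits_signed (m : ℕ) (d : ℕ → ℤ) (q : ℤ) (n H : ℕ)
    (hH : (H : ℤ) = ∑ j ∈ range m, (2 : ℤ) ^ 127 * (XX : ℤ) ^ j)
    (hn : (n : ℤ) = ∑ j ∈ range m, d j * (XX : ℤ) ^ j + (XX : ℤ) ^ m * q)
    (hd : ∀ j < m, -2 ^ 127 ≤ d j ∧ d j < 2 ^ 127) :
    ∀ j < m, (((n + H) / XX ^ j % XX : ℕ) : ℤ) - 2 ^ 127 = d j := by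
  intro j hj
  have h1 := digits_of m (fun j => d j + 2 ^ 127) q ((n : ℤ) + H)
    (by rw [hn, hH]; simp only [add_mul, Finset.sum_add_distrib]; ring)
    (fun i hi => by
      have h2 := hd i hi
      have h3 : (XX : ℤ) = 2 ^ 128 := by rw [XX_eq]; norm_num
      refine ⟨by linarith, ?_⟩
      rw [h3]
      linarith) j hj
  push_cast
  rw [h1]
  ring

theorem dec_of (d : ℕ → ℤ) (q : ℤ) (n : ℕ)
    (hn : (n : ℤ) = ∑ j ∈ range 30, d j * (XX : ℤ) ^ j + (XX : ℤ) ^ 30 * q)
    (hd : ∀ j < 30, -2 ^ 127 ≤ d j ∧ d j < 2 ^ 127) (j : ℕ) (hj : j < 30) : dec n j = d j :=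
  digits_signed 30 d q n HH HH_int hn hd j hj

/-- every natural number represents its digits -/
theorem rep_dec (n : ℕ) : ∃ q : ℤ, (n : ℤ) = ∑ j ∈ range 30, dec n j * (XX : ℤ) ^ j +
    (XX : ℤ) ^ 30 * q := by
  have key : ∀ m N : ℕ, (N : ℤ) = ∑ j ∈ range m, ((N / XX ^ j % XX : ℕ) : ℤ) * (XX : ℤ) ^ j +
      (XX : ℤ) ^ m * ((N / XX ^ m : ℕ) : ℤ) := by
    intro m
    induction m with
    | zero => intro N; simp
    | succ m ih =>
      intro N
      rw [Finset.sum_range_succ]
      have h1 := ih N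
      have h2 : ((N / XX ^ m : ℕ) : ℤ) = ((N / XX ^ m % XX : ℕ) : ℤ) +
          XX * ((N / XX ^ (m + 1) : ℕ) : ℤ) := by
        rw [pow_succ, ← Nat.div_div_eq_div_mul]
        exact_mod_cast (Nat.mod_add_div (N / XX ^ m) XX).symm
      rw [h2] at h1
      rw [h1]
      ring
  refine ⟨(((n + HH) / XX ^ 30 : ℕ) : ℤ), ?_⟩
  have h1 := key 30 (n + HH)
  have h3 : ((n + HH : ℕ) : ℤ) = n + HH := by push_cast; rfl
  rw [h3, HH_int] at h1
  have h2 : ∑ j ∈ range 30, dec n j * (XX : ℤ) ^ j =
      ∑ j ∈ range 30, (((n + HH) / XX ^ j % XX : ℕ) : ℤ) * (XX : ℤ) ^ j -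
        ∑ j ∈ range 30, (2 : ℤ) ^ 127 * (XX : ℤ) ^ j := by
    rw [← Finset.sum_sub_distrib]
    refine Finset.sum_congr rfl fun j _ => ?_
    unfold dec
    ring
  rw [h2]
  linarith

/-- the value of the digits of three matrices and three right sides -/
def val (C : Fin 3 → Fin 3 → Fin 3 → ℤ) (k : Fin 3 → ℤ) : ℤ :=
  ∑ s : Fin 3, (XX : ℤ) ^ (10 * (s : ℕ)) *
    (∑ a : Fin 3, ∑ b : Fin 3, C s a b * (XX : ℤ) ^ (3 * (a : ℕ) + b) + k s * (XX : ℤ) ^ 9)

/-- `n` represents the matrices and the right sides modulo `XX^30` -/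
def Rep (n : ℕ) (C : Fin 3 → Fin 3 → Fin 3 → ℤ) (k : Fin 3 → ℤ) : Prop :=
  ∃ q : ℤ, (n : ℤ) = val C k + (XX : ℤ) ^ 30 * q

/-- the digits as a function of the position -/
def digs (C : Fin 3 → Fin 3 → Fin 3 → ℤ) (k : Fin 3 → ℤ) (j : ℕ) : ℤ :=
  if j % 10 = 9 then k (Fin.ofNat 3 (j / 10))
  else C (Fin.ofNat 3 (j / 10)) (Fin.ofNat 3 (j % 10 / 3)) (Fin.ofNat 3 (j % 10 % 3))

theorem digs_mat (C : Fin 3 → Fin 3 → Fin 3 → ℤ) (k : Fin 3 → ℤ) (s a b : Fin 3) :
    digs C k (10 * (s : ℕ) + (3 * (a : ℕ) + b)) = C s a b := by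
  fin_cases s <;> fin_cases a <;> fin_cases b <;> rfl

theorem digs_rhs (C : Fin 3 → Fin 3 → Fin 3 → ℤ) (k : Fin 3 → ℤ) (s : Fin 3) :
    digs C k (10 * (s : ℕ) + 9) = k s := by
  fin_cases s <;> rfl

theorem val_eq (C : Fin 3 → Fin 3 → Fin 3 → ℤ) (k : Fin 3 → ℤ) :
    val C k = ∑ j ∈ range 30, digs C k j * (XX : ℤ) ^ j := by
  have h : val C k = ∑ s : Fin 3, (XX : ℤ) ^ (10 * (s : ℕ)) *
      (∑ a : Fin 3, ∑ b : Fin 3, digs C k (10 * (s : ℕ) + (3 * (a : ℕ) + b)) *
        (XX : ℤ) ^ (3 * (a : ℕ) + b) + digs C k (10 * (s : ℕ) + 9) * (XX : ℤ) ^ 9) := by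
    simp only [digs_mat, digs_rhs]
    rfl
  rw [h]
  generalize digs C k = d
  simp only [Fin.sum_univ_three, Finset.sum_range_succ, Finset.sum_range_zero]
  norm_num
  ring

/-- the matrix in the block `s` -/
def mat (n : ℕ) (s a b : Fin 3) : ℤ := dec n (10 * (s : ℕ) + (3 * (a : ℕ) + b))

/-- the right side in the block `s` -/
def rhs (n : ℕ) (s : Fin 3) : ℤ := dec n (10 * (s : ℕ) + 9)

theorem Rep.eq {n : ℕ} {C : Fin 3 → Fin 3 → Fin 3 → ℤ} {k : Fin 3 → ℤ} (h : Rep n C k)
    (hC : ∀ s a b, -2 ^ 127 ≤ C s a b ∧ C s a b < 2 ^ 127)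
    (hk : ∀ s, -2 ^ 127 ≤ k s ∧ k s < 2 ^ 127) : mat n = C ∧ rhs n = k := by
  obtain ⟨q, hq⟩ := h
  rw [val_eq] at hq
  have h1 : ∀ j < 30, -2 ^ 127 ≤ digs C k j ∧ digs C k j < 2 ^ 127 := by
    intro j _
    unfold digs
    split
    · exact hk _
    · exact hC _ _ _
  have h2 := dec_of (digs C k) q n hq h1
  constructor
  · funext s a b
    rw [mat, h2 _ (by omega), digs_mat]
  · funext s
    rw [rhs, h2 _ (by omega), digs_rhs]

/-- every natural number represents its matrices -/
theorem rep_self (n : ℕ) : Rep n (mat n) (rhs n) := by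
  obtain ⟨q, hq⟩ := rep_dec n
  refine ⟨q, ?_⟩
  rw [val_eq, hq]
  congr 1
  refine Finset.sum_congr rfl fun j hj => ?_
  congr 1
  rw [Finset.mem_range] at hj
  interval_cases j <;> rfl

theorem Rep.add {n m : ℕ} {C D : Fin 3 → Fin 3 → Fin 3 → ℤ} {k l : Fin 3 → ℤ} (h : Rep n C k)
    (h' : Rep m D l) : Rep (n + m) (fun s a b => C s a b + D s a b) (fun s => k s + l s) := by
  obtain ⟨q, hq⟩ := h
  obtain ⟨r, hr⟩ := h'
  refine ⟨q + r, ?_⟩
  push_cast
  rw [hq, hr]
  simp only [val, Fin.sum_univ_three]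
  ring

theorem Rep.mul {n : ℕ} {C : Fin 3 → Fin 3 → Fin 3 → ℤ} {k : Fin 3 → ℤ} (w : ℕ) (h : Rep n C k) :
    Rep (w * n) (fun s a b => w * C s a b) (fun s => w * k s) := by
  obtain ⟨q, hq⟩ := h
  refine ⟨w * q, ?_⟩
  push_cast
  rw [hq]
  simp only [val, Fin.sum_univ_three]
  ring

theorem Rep.mask {n : ℕ} {C : Fin 3 → Fin 3 → Fin 3 → ℤ} {k : Fin 3 → ℤ} (h : Rep n C k) :
    Rep (Nat.land n mask30) C k := by
  obtain ⟨q, hq⟩ := h
  refine ⟨q - ((n / XX ^ 30 : ℕ) : ℤ), ?_⟩
  have h1 : ((Nat.land n mask30 : ℕ) : ℤ) = n - (XX : ℤ) ^ 30 * ((n / XX ^ 30 : ℕ) : ℤ) := by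
    rw [land_mask]
    have h2 := Nat.mod_add_div n (XX ^ 30)
    have h3 : ((n % XX ^ 30 : ℕ) : ℤ) + (XX : ℤ) ^ 30 * ((n / XX ^ 30 : ℕ) : ℤ) = n := by
      exact_mod_cast h2
    linarith
  rw [h1, hq]
  ring

theorem rep_zero : Rep 0 (fun _ _ _ => 0) (fun _ => 0) := ⟨0, by simp [val]⟩

end Pool.Agent.Helper80.TP
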